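import Mathlib

set_option autoImplicit false
set_option linter.unusedSectionVars false
set_option linter.unusedVariables false

/-!
# Representations of the Weil group
-/

open Module

namespace Pool.Agent.R912.LI

/-- The Weil group of `ℚ_p`: `deg` is the degree (a geometric Frobenius has degree one), the kernel of
`deg` is the inertia group and `inert` is the set of the inertia subgroups of the finite Galois extensions
of `ℚ_p`. -/
structure WeilGroup where
  W : Type
  [grp : Group W]
  deg : W →* Multiplicative ℤ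
  frob : W
  deg_frob : deg frob = Multiplicative.ofAdd 1
  inert : Set (Subgroup W)
  le_ker : ∀ J ∈ inert, J ≤ deg.ker
  normal : ∀ J ∈ inert, J.Normal
  finite : ∀ J ∈ inert, (J.subgroupOf deg.ker).FiniteIndex
  nonempty : inert.Nonempty
  directed : ∀ J ∈ inert, ∀ J' ∈ inert, ∃ J'' ∈ inert, J'' ≤ J ∧ J'' ≤ J'

attribute [instance] WeilGroup.grp

/-- the degree as an integer -/
def WeilGroup.d (G : WeilGroup) (w : G.W) : ℤ := Multiplicative.toAdd (G.deg w)

/-- finite dimensional representations of the Weil group over the field `K` -/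
structure FRep (K : Type) [Field K] (G : WeilGroup) where
  V : Type
  [acg : AddCommGroup V]
  [mod : Module K V]
  [fin : FiniteDimensional K V]
  ρ : Representation K G.W V

attribute [instance] FRep.acg FRep.mod FRep.fin

namespace WeilGroup

variable (G : WeilGroup)

theorem d_mul (w w' : G.W) : G.d (w * w') = G.d w + G.d w' := by
  unfold d; rw [map_mul, toAdd_mul]

theorem d_one : G.d 1 = 0 := by
  unfold d; rw [map_one, toAdd_one]

theorem d_inv (w : G.W) : G.d w⁻¹ = - G.d w := by
  unfold d; rw [map_inv, toAdd_inv]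

theorem d_pow (w : G.W) (n : ℕ) : G.d (w ^ n) = n * G.d w := by
  unfold d; rw [map_pow, toAdd_pow, nsmul_eq_mul]

theorem d_frob : G.d G.frob = 1 := by
  unfold d; rw [G.deg_frob]; rfl

theorem mem_ker {w : G.W} : w ∈ G.deg.ker ↔ G.d w = 0 := by
  rw [MonoidHom.mem_ker]
  exact ⟨fun h => by unfold d; rw [h]; rfl, fun h => h⟩

end WeilGroup

namespace FRep

variable {K : Type} [Field K] {G : WeilGroup}

/-- isomorphic representations -/
def IsIso (A B : FRep K G) : Prop :=
  ∃ e : A.V ≃ₗ[K] B.V, ∀ w v, e (A.ρ w v) = B.ρ w (e v)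

/-- the invariants of inertia -/
def inv (A : FRep K G) : Submodule K A.V where
  carrier := {v | ∀ σ, G.d σ = 0 → A.ρ σ v = v}
  zero_mem' := fun σ _ => map_zero _
  add_mem' := fun {u v} hu hv σ hσ => by rw [map_add, hu σ hσ, hv σ hσ]
  smul_mem' := fun c v hv σ hσ => by rw [map_smul, hv σ hσ]

theorem mem_inv {A : FRep K G} {v : A.V} : v ∈ A.inv ↔ ∀ σ, G.d σ = 0 → A.ρ σ v = v := Iff.rfl

/-- The vectors killed by `(σ - 1) ^ m` for all `σ` in an open subgroup of the inertia group; this is
the kernel of `N ^ m` for the monodromy operator `N`. -/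
def mker (A : FRep K G) (m : ℕ) : Submodule K A.V where
  carrier := {v | ∃ J ∈ G.inert, ∀ σ ∈ J, ((A.ρ σ - 1) ^ m) v = 0}
  zero_mem' := by
    obtain ⟨J, hJ⟩ := G.nonempty
    exact ⟨J, hJ, fun σ _ => map_zero _⟩
  add_mem' := by
    rintro u v ⟨J, hJ, hu⟩ ⟨J', hJ', hv⟩
    obtain ⟨J'', h, h1, h2⟩ := G.directed J hJ J' hJ'
    exact ⟨J'', h, fun σ hσ => by rw [map_add, hu σ (h1 hσ), hv σ (h2 hσ), add_zero]⟩
  smul_mem' := by
    rintro c v ⟨J, hJ, hv⟩
    exact ⟨J, hJ, fun σ hσ => by rw [map_smul, hv σ hσ, smul_zero]⟩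

theorem mem_mker {A : FRep K G} {m : ℕ} {v : A.V} :
    v ∈ A.mker m ↔ ∃ J ∈ G.inert, ∀ σ ∈ J, ((A.ρ σ - 1) ^ m) v = 0 := Iff.rfl

theorem inv_stable (A : FRep K G) (w : G.W) : ∀ v ∈ A.inv, A.ρ w v ∈ A.inv := by
  intro v hv σ hσ
  have h1 := hv (w⁻¹ * σ * w) (by rw [G.d_mul, G.d_mul, G.d_inv, hσ]; ring)
  rw [map_mul, map_mul, Module.End.mul_apply, Module.End.mul_apply] at h1
  have h2 := congrArg (A.ρ w) h1
  rw [← Module.End.mul_apply (A.ρ w) (A.ρ w⁻¹), ← map_mul, mul_inv_cancel, map_one,
    Module.End.one_apply] at h2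
  exact h2

theorem mker_stable (A : FRep K G) (m : ℕ) (w : G.W) : ∀ v ∈ A.mker m, A.ρ w v ∈ A.mker m := by
  rintro v ⟨J, hJ, hv⟩
  refine ⟨J, hJ, fun σ hσ => ?_⟩
  have h1 := hv (w⁻¹ * σ * w) (by
    have := (G.normal J hJ).conj_mem σ hσ w⁻¹
    rwa [inv_inv] at this)
  have h2 : ∀ n : ℕ, ((A.ρ σ - 1) ^ n) * A.ρ w = A.ρ w * ((A.ρ (w⁻¹ * σ * w) - 1) ^ n) := by
    intro n
    induction n with
    | zero => simp
    | succ n ih =>
      rw [pow_succ', mul_assoc, ih, pow_succ', ← mul_assoc, ← mul_assoc]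
      congr 1
      rw [sub_mul, mul_sub, one_mul, mul_one, map_mul, map_mul, ← mul_assoc, ← mul_assoc,
        ← map_mul A.ρ w w⁻¹, mul_inv_cancel, map_one, one_mul]
  rw [← Module.End.mul_apply, h2, Module.End.mul_apply, h1, map_zero]

/-- the action on the invariants of inertia -/
noncomputable def invAct (A : FRep K G) (w : G.W) : Module.End K A.inv :=
  (A.ρ w).restrict (A.inv_stable w)

/-- the action on the kernel of `N ^ m` -/
noncomputable def act (A : FRep K G) (m : ℕ) (w : G.W) : Module.End K (A.mker m) :=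
  (A.ρ w).restrict (A.mker_stable m w)

@[simp] theorem invAct_coe (A : FRep K G) (w : G.W) (v : A.inv) : (A.invAct w v : A.V) = A.ρ w v :=
  rfl

@[simp] theorem act_coe (A : FRep K G) (m : ℕ) (w : G.W) (v : A.mker m) :
    (A.act m w v : A.V) = A.ρ w v := rfl

theorem invAct_pow (A : FRep K G) (w : G.W) (n : ℕ) : (A.invAct w) ^ n = A.invAct (w ^ n) := by
  induction n with
  | zero =>
    refine LinearMap.ext fun v => Subtype.ext ?_
    rw [pow_zero, pow_zero, invAct_coe, map_one]
    rfl
  | succ n ih =>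
    rw [pow_succ, pow_succ, ih]
    refine LinearMap.ext fun v => Subtype.ext ?_
    rw [Module.End.mul_apply, invAct_coe, invAct_coe, invAct_coe, map_mul, Module.End.mul_apply]

theorem act_pow (A : FRep K G) (m : ℕ) (w : G.W) (n : ℕ) : (A.act m w) ^ n = A.act m (w ^ n) := by
  induction n with
  | zero =>
    refine LinearMap.ext fun v => Subtype.ext ?_
    rw [pow_zero, pow_zero, act_coe, map_one]
    rfl
  | succ n ih =>
    rw [pow_succ, pow_succ, ih]
    refine LinearMap.ext fun v => Subtype.ext ?_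
    rw [Module.End.mul_apply, act_coe, act_coe, act_coe, map_mul, Module.End.mul_apply]

/-- the trace on the kernel of `N ^ m` -/
noncomputable def tr (A : FRep K G) (m : ℕ) (w : G.W) : K := LinearMap.trace K _ (A.act m w)

/-- the trace on the invariants -/
noncomputable def itr (A : FRep K G) (w : G.W) : K := LinearMap.trace K _ (A.invAct w)

/-! ### transport -/

theorem trace_eq_of_equiv {M N : Type} [AddCommGroup M] [AddCommGroup N] [Module K M] [Module K N]
    [FiniteDimensional K M] [FiniteDimensional K N] (e : M ≃ₗ[K] N) (f : Module.End K M)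
    (g : Module.End K N) (h : ∀ v, e (f v) = g (e v)) :
    LinearMap.trace K M f = LinearMap.trace K N g := by
  have h1 : g = e.conj f := by
    refine LinearMap.ext fun v => ?_
    rw [LinearEquiv.conj_apply, LinearMap.comp_apply, LinearMap.comp_apply, LinearEquiv.coe_coe,
      LinearEquiv.coe_coe, h, LinearEquiv.apply_symm_apply]
  rw [h1, LinearMap.trace_conj']

theorem mker_iso {A B : FRep K G} {e : A.V ≃ₗ[K] B.V} (he : ∀ w v, e (A.ρ w v) = B.ρ w (e v))
    (m : ℕ) (v : A.V) : e v ∈ B.mker m ↔ v ∈ A.mker m := by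
  have key : ∀ (σ : G.W) (n : ℕ) (v : A.V), e (((A.ρ σ - 1) ^ n) v) = ((B.ρ σ - 1) ^ n) (e v) := by
    intro σ n
    induction n with
    | zero => intro v; simp
    | succ n ih =>
      intro v
      rw [pow_succ', pow_succ', Module.End.mul_apply, Module.End.mul_apply, ← ih,
        LinearMap.sub_apply, LinearMap.sub_apply, map_sub, he, Module.End.one_apply,
        Module.End.one_apply]
  constructor
  · rintro ⟨J, hJ, h⟩
    refine ⟨J, hJ, fun σ hσ => ?_⟩
    have h1 := h σ hσ
    rw [← key] at h1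
    exact (LinearEquiv.map_eq_zero_iff e).1 h1
  · rintro ⟨J, hJ, h⟩
    refine ⟨J, hJ, fun σ hσ => ?_⟩
    rw [← key, h σ hσ, map_zero]

theorem tr_iso {A B : FRep K G} (h : A.IsIso B) (m : ℕ) (w : G.W) : A.tr m w = B.tr m w := by
  obtain ⟨e, he⟩ := h
  let e' : A.mker m ≃ₗ[K] B.mker m := LinearEquiv.ofSubmodules e _ _ (by
    ext v
    rw [Submodule.mem_map]
    constructor
    · rintro ⟨u, hu, rfl⟩
      exact (mker_iso he m u).2 hu
    · intro hv
      refine ⟨e.symm v, ?_, e.apply_symm_apply v⟩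
      rw [← mker_iso he m, LinearEquiv.apply_symm_apply]
      exact hv)
  refine trace_eq_of_equiv e' _ _ fun v => Subtype.ext ?_
  show e (A.ρ w v) = B.ρ w (e v)
  exact he w v

theorem itr_iso {A B : FRep K G} (h : A.IsIso B) (w : G.W) : A.itr w = B.itr w := by
  obtain ⟨e, he⟩ := h
  have hmem : ∀ v, e v ∈ B.inv ↔ v ∈ A.inv := by
    intro v
    constructor
    · intro hv σ hσ
      have h1 := hv σ hσ
      rw [← he] at h1
      exact e.injective h1
    · intro hv σ hσ
      rw [← he, hv σ hσ]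
  let e' : A.inv ≃ₗ[K] B.inv := LinearEquiv.ofSubmodules e _ _ (by
    ext v
    rw [Submodule.mem_map]
    constructor
    · rintro ⟨u, hu, rfl⟩
      exact (hmem u).2 hu
    · intro hv
      refine ⟨e.symm v, ?_, e.apply_symm_apply v⟩
      rw [← hmem, LinearEquiv.apply_symm_apply]
      exact hv)
  refine trace_eq_of_equiv e' _ _ fun v => Subtype.ext ?_
  show e (A.ρ w v) = B.ρ w (e v)
  exact he w v

end FRep

end Pool.Agent.R912.LI
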