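import Pool.Agent.R912.LI.Rat

set_option autoImplicit false
set_option linter.unusedSectionVars false
set_option linter.unusedVariables false

/-!
# From the invariants of inertia to all elements of the Weil group
-/

open Module Polynomial

namespace Pool.Agent.R912.LI

namespace FRep

section single

variable {K : Type} [Field K] {G : WeilGroup}

/-- the subgroup generated by `J` and `w` -/
def gen (G : WeilGroup) (J : Subgroup G.W) (w : G.W) : Subgroup G.W := J ⊔ Subgroup.zpowers w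

theorem mem_gen {J : Subgroup G.W} (hJ : J ∈ G.inert) {w u : G.W} (hu : u ∈ gen G J w) :
    ∃ j ∈ J, ∃ a : ℤ, u = j * w ^ a := by
  have hn := G.normal J hJ
  have h1 : u ∈ ((J ⊔ Subgroup.zpowers w : Subgroup G.W) : Set G.W) := hu
  rw [Subgroup.normal_mul] at h1
  obtain ⟨j, hj, y, hy, rfl⟩ := Set.mem_mul.1 h1
  obtain ⟨a, rfl⟩ := Subgroup.mem_zpowers_iff.1 hy
  exact ⟨j, hj, a, rfl⟩

theorem d_zpow (G : WeilGroup) (w : G.W) (a : ℤ) : G.d (w ^ a) = a * G.d w := by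
  unfold WeilGroup.d; rw [map_zpow, toAdd_zpow, smul_eq_mul]

theorem le_gen (J : Subgroup G.W) (w : G.W) : J ≤ gen G J w := le_sup_left

theorem mem_gen_self (J : Subgroup G.W) (w : G.W) : w ∈ gen G J w :=
  (le_sup_right : Subgroup.zpowers w ≤ gen G J w) (Subgroup.mem_zpowers w)

theorem finite_gen {J : Subgroup G.W} (hJ : J ∈ G.inert) {w : G.W} (hw : 0 < G.d w) :
    Finite (G.W ⧸ gen G J w) := by
  have hfi := G.finite J hJ
  have hfin : Finite (G.deg.ker ⧸ J.subgroupOf G.deg.ker) := inferInstance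
  obtain ⟨k, hk⟩ := Int.eq_ofNat_of_zero_le hw.le
  have hk0 : 0 < k := by
    rw [hk] at hw; exact_mod_cast hw
  refine Finite.of_surjective (α := Fin k × (G.deg.ker ⧸ J.subgroupOf G.deg.ker))
    (fun y => ((G.frob ^ (y.1 : ℕ) * ((y.2.out : G.deg.ker) : G.W) : G.W) : G.W ⧸ gen G J w)) ?_
  intro x
  induction x using QuotientGroup.induction_on with
  | H g =>
    -- `d g = k a + i`
    have hi1 := Int.emod_nonneg (G.d g) (show (k : ℤ) ≠ 0 by exact_mod_cast hk0.ne')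
    have hi2 := Int.emod_lt_of_pos (G.d g) (show (0 : ℤ) < k by exact_mod_cast hk0)
    obtain ⟨i, hi⟩ := Int.eq_ofNat_of_zero_le hi1
    have hik : i < k := by rw [hi] at hi2; exact_mod_cast hi2
    set a := G.d g / k with ha
    have hdg : G.d g = k * a + i := by
      rw [← hi, ha]; exact (Int.mul_ediv_add_emod (G.d g) k).symm
    let τ : G.deg.ker := ⟨(G.frob ^ i)⁻¹ * (g * (w ^ a)⁻¹), G.mem_ker.2 (by
      rw [G.d_mul, G.d_inv, G.d_pow, G.d_frob, G.d_mul, G.d_inv, d_zpow, hdg, hk]; ring)⟩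
    obtain ⟨j, hj⟩ := QuotientGroup.mk_out_eq_mul (J.subgroupOf G.deg.ker) τ
    refine ⟨(⟨i, hik⟩, (τ : G.deg.ker ⧸ J.subgroupOf G.deg.ker)), ?_⟩
    show ((G.frob ^ i * (((τ : G.deg.ker ⧸ J.subgroupOf G.deg.ker).out : G.deg.ker) : G.W) : G.W) :
      G.W ⧸ gen G J w) = (g : G.W ⧸ gen G J w)
    rw [hj, Subgroup.coe_mul, QuotientGroup.eq]
    have h1 : (G.frob ^ i * ((τ : G.W) * ((j : G.deg.ker) : G.W)))⁻¹ * g =
        ((j : G.deg.ker) : G.W)⁻¹ * w ^ a := by
      show (G.frob ^ i * (((G.frob ^ i)⁻¹ * (g * (w ^ a)⁻¹)) * ((j : G.deg.ker) : G.W)))⁻¹ * g = _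
      group
    rw [h1]
    exact mul_mem (inv_mem (le_gen J w j.2)) (zpow_mem (mem_gen_self J w) a)

/-- the weighted number of fixed points -/
noncomputable def fixSum (G : WeilGroup) (J : Subgroup G.W) (w : G.W) (g : G.W)
    [Fintype (G.deg.ker ⧸ J.subgroupOf G.deg.ker)] : ℕ :=
  ∑ x : G.deg.ker ⧸ J.subgroupOf G.deg.ker,
    Nat.card {y : G.W ⧸ gen G J w // (g * (x.out : G.W))⁻¹ • y = y}

theorem fixSum_pos {J : Subgroup G.W} (hJ : J ∈ G.inert) {w g : G.W} (hw : 0 < G.d w)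
    (hg : G.d g = G.d w) [Fintype (G.deg.ker ⧸ J.subgroupOf G.deg.ker)] :
    0 < fixSum G J w g := by
  have hfin := finite_gen hJ hw
  let τ : G.deg.ker := ⟨g⁻¹ * w, G.mem_ker.2 (by rw [G.d_mul, G.d_inv, hg]; ring)⟩
  obtain ⟨j, hj⟩ := QuotientGroup.mk_out_eq_mul (J.subgroupOf G.deg.ker) τ
  have h1 : 0 < Nat.card {y : G.W ⧸ gen G J w //
      (g * (((τ : G.deg.ker ⧸ J.subgroupOf G.deg.ker).out : G.deg.ker) : G.W))⁻¹ • y = y} := by
    have : Nonempty {y : G.W ⧸ gen G J w //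
      (g * (((τ : G.deg.ker ⧸ J.subgroupOf G.deg.ker).out : G.deg.ker) : G.W))⁻¹ • y = y} := by
      refine ⟨⟨((1 : G.W) : G.W ⧸ gen G J w), ?_⟩⟩
      rw [MulAction.Quotient.smul_coe, smul_eq_mul, QuotientGroup.eq, hj, Subgroup.coe_mul]
      have h2 : ((g * ((τ : G.W) * ((j : G.deg.ker) : G.W)))⁻¹ * 1)⁻¹ * 1 =
          w * ((j : G.deg.ker) : G.W) := by
        show ((g * ((g⁻¹ * w) * ((j : G.deg.ker) : G.W)))⁻¹ * 1)⁻¹ * 1 = _
        group
      rw [h2]
      exact mul_mem (mem_gen_self J w) (le_gen J w j.2)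
    exact Nat.card_pos
  refine lt_of_lt_of_le h1 ?_
  unfold fixSum
  exact Finset.single_le_sum (f := fun x : G.deg.ker ⧸ J.subgroupOf G.deg.ker =>
    Nat.card {y : G.W ⧸ gen G J w // (g * (x.out : G.W))⁻¹ • y = y})
    (fun x _ => Nat.zero_le _) (Finset.mem_univ (τ : G.deg.ker ⧸ J.subgroupOf G.deg.ker))

theorem act_mul (A : FRep K G) (m : ℕ) (x y : G.W) : A.act m (x * y) = A.act m x * A.act m y := by
  refine LinearMap.ext fun v => Subtype.ext ?_
  rw [Module.End.mul_apply, act_coe, act_coe, act_coe, map_mul, Module.End.mul_apply]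

/-- The trace of `w` on `mker 1` is a rational multiple, depending only on the Weil group, of the trace
of a power of Frobenius on the invariants in the tensor product with `K[W / U]`. -/
theorem fixSum_mul (A : FRep K G) {J : Subgroup G.W} (hJ : J ∈ G.inert)
    (ht : ∀ σ ∈ J, ∀ v ∈ A.mker 1, A.ρ σ v = v) {w g : G.W} (hw : 0 < G.d w) (hg : G.d g = G.d w)
    [Fintype (G.deg.ker ⧸ J.subgroupOf G.deg.ker)] [Finite (G.W ⧸ gen G J w)] :
    (fixSum G J w g : K) * A.tr 1 w =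
      (Fintype.card (G.deg.ker ⧸ J.subgroupOf G.deg.ker) : K) * (perm (gen G J w) A).itr g := by
  have htp : ∀ σ ∈ J, ∀ f ∈ (perm (gen G J w) A).mker 1, (perm (gen G J w) A).ρ σ f = f := by
    intro σ hσ f hf
    refine funext fun x => ?_
    show A.ρ σ (f (σ⁻¹ • x)) = f x
    rw [smul_quot hJ (le_gen J w) (J.inv_mem hσ)]
    exact ht σ hσ _ ((mem_mker_perm hJ (le_gen J w) A 1 f).1 hf x)
  rw [averaging (perm (gen G J w) A) hJ htp g]
  unfold fixSum
  rw [Nat.cast_sum, Finset.sum_mul]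
  refine Finset.sum_congr rfl fun x _ => ?_
  rw [tr_perm hJ (le_gen J w)]
  rcases isEmpty_or_nonempty {y : G.W ⧸ gen G J w // (g * (x.out : G.W))⁻¹ • y = y} with he | hne
  · rw [Nat.card_of_isEmpty, Nat.cast_zero, zero_mul, zero_mul]
  · obtain ⟨y, hy⟩ := hne
    congr 1
    revert hy
    induction y using QuotientGroup.induction_on with
    | H h =>
      intro hy
      rw [MulAction.Quotient.smul_coe, smul_eq_mul, QuotientGroup.eq] at hy
      obtain ⟨j, hj, a, hja⟩ := mem_gen hJ hy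
      have hx : G.d ((x.out : G.deg.ker) : G.W) = 0 := G.mem_ker.1 x.out.2
      have hjd : G.d j = 0 := G.mem_ker.1 (G.le_ker J hJ hj)
      have h1 : ((g * (x.out : G.W))⁻¹ * h)⁻¹ * h = h⁻¹ * (g * (x.out : G.W)) * h := by group
      rw [h1] at hja
      have h2 := congrArg G.d hja
      rw [G.d_mul, G.d_mul, G.d_mul, G.d_inv, hx, G.d_mul, d_zpow, hjd, hg] at h2
      have h3 : (a - 1) * G.d w = 0 := by linear_combination -h2
      have h4 : a = 1 := by
        rcases mul_eq_zero.1 h3 with h5 | h5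
        · omega
        · omega
      rw [h4, zpow_one] at hja
      have h5 := A.tr_conj 1 h⁻¹ (g * (x.out : G.W))
      rw [inv_inv, hja] at h5
      rw [← h5]
      unfold tr
      rw [act_mul]
      have h6 : A.act 1 j = 1 := by
        refine LinearMap.ext fun v => Subtype.ext ?_
        rw [act_coe]
        exact ht j hj _ v.2
      rw [h6, one_mul]

theorem triv_mono {A : FRep K G} {J J' : Subgroup G.W} (h : J' ≤ J)
    (ht : ∀ σ ∈ J, ∀ v ∈ A.mker 1, A.ρ σ v = v) : ∀ σ ∈ J', ∀ v ∈ A.mker 1, A.ρ σ v = v :=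
  fun σ hσ => ht σ (h hσ)

end single

section family

variable {p : ℕ} {G : WeilGroup} (A : (ℓ : Ell p) → FRep ℓ.Q G)

theorem common_triv (ℓ ℓ' : Ell p) : ∃ J ∈ G.inert, (∀ σ ∈ J, ∀ v ∈ (A ℓ).mker 1, (A ℓ).ρ σ v = v) ∧
    ∀ σ ∈ J, ∀ v ∈ (A ℓ').mker 1, (A ℓ').ρ σ v = v := by
  obtain ⟨J, hJ, h⟩ := (A ℓ).exists_triv
  obtain ⟨J', hJ', h'⟩ := (A ℓ').exists_triv
  obtain ⟨J'', hJ'', h1, h2⟩ := G.directed J hJ J' hJ'
  exact ⟨J'', hJ'', triv_mono h1 h, triv_mono h2 h'⟩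

/-- From the traces of the powers of Frobenius on the invariants of inertia in all the representations
`A ⊗ ℚ_ℓ[W / U]` to the traces on `mker 1`. -/
theorem tr_one_of_itr
    (h : ∀ (U : Subgroup G.W) [Finite (G.W ⧸ U)], (∃ J ∈ G.inert, J ≤ U) → ∀ k : ℕ,
      IsRat fun ℓ => (perm U (A ℓ)).itr (G.frob ^ (k + 1)))
    (w : G.W) (hw : 0 < G.d w) : IsRat fun ℓ => (A ℓ).tr 1 w := by
  classical
  refine IsRat.of_pairs fun ℓ ℓ' => ?_
  obtain ⟨J, hJ, h1, h2⟩ := common_triv A ℓ ℓ'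
  have hfi := G.finite J hJ
  have : Fintype (G.deg.ker ⧸ J.subgroupOf G.deg.ker) := Fintype.ofFinite _
  have hfin := finite_gen hJ hw
  obtain ⟨k, hk⟩ := Int.eq_ofNat_of_zero_le (show 0 ≤ G.d w - 1 by omega)
  have hg : G.d (G.frob ^ (k + 1)) = G.d w := by
    rw [G.d_pow, G.d_frob]; push_cast; omega
  obtain ⟨r, hr⟩ := h (gen G J w) ⟨J, hJ, le_gen J w⟩ k
  have hpos := fixSum_pos hJ hw hg
  refine ⟨(Fintype.card (G.deg.ker ⧸ J.subgroupOf G.deg.ker) : ℚ) * r /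
    (fixSum G J w (G.frob ^ (k + 1)) : ℚ), ?_, ?_⟩
  · have h3 := fixSum_mul (A ℓ) hJ h1 hw hg
    have h4 : ((fixSum G J w (G.frob ^ (k + 1)) : ℕ) : ℓ.Q) ≠ 0 := Nat.cast_ne_zero.2 hpos.ne'
    have h5 := hr ℓ
    beta_reduce at h5
    rw [h5] at h3
    rw [Rat.cast_div, Rat.cast_mul, Rat.cast_natCast, Rat.cast_natCast, eq_div_iff h4, mul_comm]
    exact h3
  · have h3 := fixSum_mul (A ℓ') hJ h2 hw hg
    have h4 : ((fixSum G J w (G.frob ^ (k + 1)) : ℕ) : ℓ'.Q) ≠ 0 := Nat.cast_ne_zero.2 hpos.ne'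
    have h5 := hr ℓ'
    beta_reduce at h5
    rw [h5] at h3
    rw [Rat.cast_div, Rat.cast_mul, Rat.cast_natCast, Rat.cast_natCast, eq_div_iff h4, mul_comm]
    exact h3

/-- From the traces on `mker 1` to the traces on the invariants of inertia. -/
theorem itr_of_tr_one (h : ∀ w, 0 < G.d w → IsRat fun ℓ => (A ℓ).tr 1 w) (g : G.W)
    (hg : 0 < G.d g) : IsRat fun ℓ => (A ℓ).itr g := by
  classical
  refine IsRat.of_pairs fun ℓ ℓ' => ?_
  obtain ⟨J, hJ, h1, h2⟩ := common_triv A ℓ ℓ'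
  have hfi := G.finite J hJ
  have : Fintype (G.deg.ker ⧸ J.subgroupOf G.deg.ker) := Fintype.ofFinite _
  have hsum : IsRat fun ℓ : Ell p => ∑ x : G.deg.ker ⧸ J.subgroupOf G.deg.ker,
      (A ℓ).tr 1 (g * (x.out : G.W)) := by
    refine IsRat.sum _ fun x _ => h _ ?_
    have hx : G.d ((x.out : G.deg.ker) : G.W) = 0 := G.mem_ker.1 x.out.2
    rw [G.d_mul, hx, add_zero]
    exact hg
  obtain ⟨r, hr⟩ := hsum
  have hcard : (Fintype.card (G.deg.ker ⧸ J.subgroupOf G.deg.ker)) ≠ 0 := Fintype.card_ne_zero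
  refine ⟨r / (Fintype.card (G.deg.ker ⧸ J.subgroupOf G.deg.ker) : ℚ), ?_, ?_⟩
  · have h3 := averaging (A ℓ) hJ h1 g
    have h4 : ((Fintype.card (G.deg.ker ⧸ J.subgroupOf G.deg.ker) : ℕ) : ℓ.Q) ≠ 0 :=
      Nat.cast_ne_zero.2 hcard
    rw [Rat.cast_div, Rat.cast_natCast, eq_div_iff h4, mul_comm, h3]
    exact hr ℓ
  · have h3 := averaging (A ℓ') hJ h2 g
    have h4 : ((Fintype.card (G.deg.ker ⧸ J.subgroupOf G.deg.ker) : ℕ) : ℓ'.Q) ≠ 0 :=
      Nat.cast_ne_zero.2 hcard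
    rw [Rat.cast_div, Rat.cast_natCast, eq_div_iff h4, mul_comm, h3]
    exact hr ℓ'

/-- From the elements of positive degree to all elements. -/
theorem tr_all_of_pos (m : ℕ) (h : ∀ w, 0 < G.d w → IsRat fun ℓ => (A ℓ).tr m w) (w : G.W) :
    IsRat fun ℓ => (A ℓ).tr m w := by
  have hunit : ∀ ℓ, IsUnit ((A ℓ).act m G.frob) := by
    intro ℓ
    have h1 : (A ℓ).act m G.frob * (A ℓ).act m G.frob⁻¹ = 1 := by
      rw [← act_mul, mul_inv_cancel]
      refine LinearMap.ext fun v => Subtype.ext ?_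
      rw [act_coe, map_one]; rfl
    have h2 : (A ℓ).act m G.frob⁻¹ * (A ℓ).act m G.frob = 1 := by
      rw [← act_mul, inv_mul_cancel]
      refine LinearMap.ext fun v => Subtype.ext ?_
      rw [act_coe, map_one]; rfl
    exact ⟨⟨_, _, h1, h2⟩, rfl⟩
  obtain ⟨n, γ, hγ, hrec⟩ := recurrence (fun ℓ => (A ℓ).act m G.frob) hunit (by
    intro k
    refine (h (G.frob ^ (k + 1)) (by rw [G.d_pow, G.d_frob]; push_cast; omega)).congr fun ℓ => ?_
    rw [act_pow]
    rfl)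
  have key : ∀ j : ℕ, ∀ w, -(j : ℤ) < G.d w → IsRat fun ℓ => (A ℓ).tr m w := by
    intro j
    induction j with
    | zero => intro w hw; exact h w (by simpa using hw)
    | succ j ih =>
      intro w hw
      refine IsRat.cancel hγ ?_
      have h1 : IsRat fun ℓ : Ell p => - ∑ i ∈ Finset.range n, (γ (i + 1) : ℓ.Q) *
          (A ℓ).tr m (w * G.frob ^ (i + 1)) := by
        refine IsRat.neg (IsRat.sum _ fun i _ => (isRat_const (γ (i + 1))).mul (ih _ ?_))
        rw [G.d_mul, G.d_pow, G.d_frob]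
        push_cast at hw ⊢
        omega
      refine h1.congr fun ℓ => ?_
      have h2 := hrec ℓ ((A ℓ).act m w)
      have h3 : ∀ i ∈ Finset.range n, (γ (i + 1) : ℓ.Q) * LinearMap.trace ℓ.Q _
          ((A ℓ).act m w * (A ℓ).act m G.frob ^ (i + 1)) = (γ (i + 1) : ℓ.Q) *
          (A ℓ).tr m (w * G.frob ^ (i + 1)) := by
        intro i _
        rw [act_pow, ← act_mul]
        rfl
      rw [Finset.sum_congr rfl h3] at h2
      exact h2
  exact key (G.d w).natAbs.succ w (by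
    have := neg_abs_le (G.d w)
    rw [Int.abs_eq_natAbs] at this
    push_cast
    push_cast at this
    omega)

end family

end FRep

end Pool.Agent.R912.LI
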