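import Pool.Agent.R912.LI.Sys

set_option autoImplicit false
set_option linter.unusedSectionVars false
set_option linter.unusedVariables false

/-!
# Representations of the Weil group by matrices
-/

open Module Polynomial Matrix

open scoped Kronecker

namespace Pool.Agent.R912.LI

section defs

variable {K : Type} [Field K]

/-- `C` is the matrix of the restriction of `T` to the subspace `S`, in some basis of `S` (the columns
of `B`). -/
def OnSub {n k : ℕ} (S : (Fin n → K) → Prop) (T : Matrix (Fin n) (Fin n) K)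
    (C : Matrix (Fin k) (Fin k) K) : Prop :=
  ∃ B : Matrix (Fin n) (Fin k) K, (∀ u, B *ᵥ u = 0 → u = 0) ∧ (∀ v, S v ↔ ∃ u, B *ᵥ u = v) ∧
    T * B = B * C

/-- the matrices `Y w` and `Z w` describe isomorphic representations -/
def Conj {W I J : Type} [Fintype I] [Fintype J] [DecidableEq I] [DecidableEq J]
    (Y : W → Matrix I I K) (Z : W → Matrix J J K) : Prop :=
  ∃ (P : Matrix I J K) (Q : Matrix J I K), P * Q = 1 ∧ Q * P = 1 ∧ ∀ w, Y w * P = P * Z w

/-- a representation of the Weil group by matrices -/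
abbrev Rep (G : WeilGroup) (K : Type) [Field K] (n : ℕ) : Type := G.W →* Matrix (Fin n) (Fin n) K

variable (G : WeilGroup) {n : ℕ}

/-- `v` is fixed by the inertia group -/
def Inv (ρ : Rep G K n) (v : Fin n → K) : Prop :=
  ∀ σ, G.d σ = 0 → ρ σ *ᵥ v = v

/-- `v` is killed by `(σ - 1) ^ m` for all `σ` in an open subgroup of the inertia group: the kernel of
`N ^ m` for the monodromy operator `N` -/
def Ker (ρ : Rep G K n) (m : ℕ) (v : Fin n → K) : Prop :=
  ∃ J ∈ G.inert, ∀ σ ∈ J, ((ρ σ - 1) ^ m) *ᵥ v = 0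

/-- `c` is a cocycle: `w e₀ = e₀` and `w e₁ = q ^ d(w) e₁ + c(w) e₀` is an action of the Weil group -/
def Cocycle (q : K) (c : G.W → K) : Prop := ∀ w w', c (w * w') = c w' + q ^ G.d w' * c w

/-- `N` is the monodromy operator: it is nilpotent, `N w = q ^ d(w) w N`, and `σ = exp (c(σ) N)`
for all `σ` in an open subgroup of the inertia group. -/
def Mono (q : K) (c : G.W → K) (ρ : Rep G K n) (N : Matrix (Fin n) (Fin n) K) : Prop :=
  (∃ r, N ^ r = 0) ∧ (∀ w, N * ρ w = q ^ G.d w • (ρ w * N)) ∧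
    ∃ J ∈ G.inert, ∀ σ ∈ J, ∃ r, (c σ • N) ^ (r + 1) = 0 ∧
      ρ σ = ∑ i ∈ Finset.range (r + 1), ((i.factorial : K)⁻¹) • (c σ • N) ^ i

/-- The tensor product of `B` with the representation with the basis `e₀, e₁` such that `w e₀ = e₀` and
`w e₁ = q ^ d(w) e₁ + c(w) e₀`. -/
def tateMat {b : ℕ} (q : K) (c : G.W → K) (B : Rep G K b) (w : G.W) :
    Matrix (Fin b ⊕ Fin b) (Fin b ⊕ Fin b) K :=
  fromBlocks (B w) (c w • B w) 0 (q ^ G.d w • B w)

/-- The tensor product of `B` with the unramified representation in which Frobenius is the companion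
matrix of `T ^ 2 - a T + q`. -/
noncomputable def ordMat {b : ℕ} (q a : K) (B : Rep G K b) (w : G.W) :
    Matrix (Fin 2 × Fin b) (Fin 2 × Fin b) K :=
  (!![0, -q; 1, a] ^ G.d w) ⊗ₖ B w

/-- The tensor product of `A` with the permutation representation on `W / U`. -/
def permMat {a : ℕ} (U : Subgroup G.W) [DecidableEq (G.W ⧸ U)] (A : Rep G K a) (w : G.W) :
    Matrix ((G.W ⧸ U) × Fin a) ((G.W ⧸ U) × Fin a) K :=
  fun s t => if t.1 = w⁻¹ • s.1 then A w s.2 t.2 else 0

/-- direct sum -/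
def sumMat {I J : Type} (A : G.W → Matrix I I K) (B : G.W → Matrix J J K) (w : G.W) :
    Matrix (I ⊕ J) (I ⊕ J) K := fromBlocks (A w) 0 0 (B w)

/-- the Tate twist `C(-1)` -/
def twistMat {c : ℕ} (q : K) (C : Rep G K c) (w : G.W) : Matrix (Fin c) (Fin c) K :=
  q ^ G.d w • C w

variable {y a b c : ℕ}

/-- The Künneth formula for the product with `P^1`: `Y = A ⊕ C(-1)`. -/
def IsProdLine (q : K) (Y : Rep G K y) (A : Rep G K a) (C : Rep G K c) : Prop :=
  Conj Y (sumMat G A (twistMat G q C))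

/-- The Künneth formula for the product with a Tate curve: `Y = A ⊕ B ⊗ H^1(E) ⊕ C(-1)`. -/
def IsProdTate (q : K) (κ : G.W → K) (Y : Rep G K y) (A : Rep G K a) (B : Rep G K b)
    (C : Rep G K c) : Prop :=
  Conj Y (sumMat G (sumMat G A (tateMat G q κ B)) (twistMat G q C))

/-- The Künneth formula for the product with an elliptic curve with good reduction:
`Y = A ⊕ B ⊗ H^1(E') ⊕ C(-1)`. -/
def IsProdOrd (q t : K) (Y : Rep G K y) (A : Rep G K a) (B : Rep G K b) (C : Rep G K c) : Prop :=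
  Conj Y (sumMat G (sumMat G A (ordMat G q t B)) (twistMat G q C))

/-- The Künneth formula for the product with `Spec M`. -/
def IsProdField (U : Subgroup G.W) (Y : Rep G K y) (A : Rep G K a) : Prop :=
  ∀ [Fintype (G.W ⧸ U)] [DecidableEq (G.W ⧸ U)], Conj Y (permMat G U A)

end defs

/-! ### restriction to a subspace -/

section sub

variable {K : Type} [Field K]

theorem charpoly_of_equiv {M N : Type} [AddCommGroup M] [AddCommGroup N] [Module K M] [Module K N]
    [FiniteDimensional K M] [FiniteDimensional K N] (e : M ≃ₗ[K] N) (f : Module.End K M)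
    (g : Module.End K N) (h : ∀ v, e (f v) = g (e v)) : f.charpoly = g.charpoly := by
  have h1 : g = e.conj f := by
    refine LinearMap.ext fun v => ?_
    rw [LinearEquiv.conj_apply, LinearMap.comp_apply, LinearMap.comp_apply, LinearEquiv.coe_coe,
      LinearEquiv.coe_coe, h, LinearEquiv.apply_symm_apply]
  rw [h1, LinearEquiv.charpoly_conj]

theorem onSub_equiv {n k : ℕ} {S : Submodule K (Fin n → K)} {T : Matrix (Fin n) (Fin n) K}
    {C : Matrix (Fin k) (Fin k) K} (h : OnSub (fun v => v ∈ S) T C)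
    (hT : ∀ v ∈ S, Matrix.toLin' T v ∈ S) :
    ∃ e : (Fin k → K) ≃ₗ[K] S, ∀ u, e (Matrix.toLin' C u) = (Matrix.toLin' T).restrict hT (e u) := by
  obtain ⟨B, h1, h2, h3⟩ := h
  let f : (Fin k → K) →ₗ[K] S := (Matrix.toLin' B).codRestrict S fun u => (h2 _).2 ⟨u, rfl⟩
  have hf : Function.Bijective f := by
    constructor
    · rw [← LinearMap.ker_eq_bot, LinearMap.ker_eq_bot']
      intro u hu
      exact h1 u (congrArg Subtype.val hu)
    · intro v
      obtain ⟨u, hu⟩ := (h2 v).1 v.2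
      exact ⟨u, Subtype.ext hu⟩
  refine ⟨LinearEquiv.ofBijective f hf, fun u => Subtype.ext ?_⟩
  show B *ᵥ (C *ᵥ u) = T *ᵥ (B *ᵥ u)
  rw [Matrix.mulVec_mulVec, Matrix.mulVec_mulVec, h3]

theorem onSub_trace {n k : ℕ} {S : Submodule K (Fin n → K)} {T : Matrix (Fin n) (Fin n) K}
    {C : Matrix (Fin k) (Fin k) K} (h : OnSub (fun v => v ∈ S) T C)
    (hT : ∀ v ∈ S, Matrix.toLin' T v ∈ S) :
    C.trace = LinearMap.trace K S ((Matrix.toLin' T).restrict hT) := by
  obtain ⟨e, he⟩ := onSub_equiv h hT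
  rw [← FRep.trace_eq_of_equiv e _ _ he, Matrix.trace_toLin'_eq]

theorem onSub_charpoly {n k : ℕ} {S : Submodule K (Fin n → K)} {T : Matrix (Fin n) (Fin n) K}
    {C : Matrix (Fin k) (Fin k) K} (h : OnSub (fun v => v ∈ S) T C)
    (hT : ∀ v ∈ S, Matrix.toLin' T v ∈ S) :
    C.charpolyRev = ((Matrix.toLin' T).restrict hT).charpoly.reverse := by
  obtain ⟨e, he⟩ := onSub_equiv h hT
  rw [← charpoly_of_equiv e _ _ he, Matrix.charpoly_toLin', Matrix.reverse_charpoly]

theorem onSub_exists {n : ℕ} (S : Submodule K (Fin n → K)) (T : Matrix (Fin n) (Fin n) K)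
    (hT : ∀ v ∈ S, Matrix.toLin' T v ∈ S) :
    ∃ (k : ℕ) (C : Matrix (Fin k) (Fin k) K), OnSub (fun v => v ∈ S) T C := by
  classical
  let b := Module.finBasis K S
  have hmul : ∀ u : Fin (finrank K S) → K,
      (Matrix.of fun i j => (b j : Fin n → K) i) *ᵥ u = ((∑ j, u j • b j : S) : Fin n → K) := by
    intro u
    refine funext fun i => ?_
    rw [AddSubmonoidClass.coe_finsetSum, Finset.sum_apply]
    show ∑ j, (b j : Fin n → K) i * u j = _
    refine Finset.sum_congr rfl fun j _ => ?_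
    rw [Submodule.coe_smul, Pi.smul_apply, smul_eq_mul, mul_comm]
  refine ⟨finrank K S, LinearMap.toMatrix b b ((Matrix.toLin' T).restrict hT),
    Matrix.of fun i j => (b j : Fin n → K) i, ?_, ?_, ?_⟩
  · intro u hu
    rw [hmul] at hu
    have h1 : (∑ j, u j • b j) = 0 := Subtype.ext hu
    have h2 := Fintype.linearIndependent_iff.1 b.linearIndependent u h1
    exact funext h2
  · intro v
    constructor
    · intro hv
      refine ⟨fun j => b.repr ⟨v, hv⟩ j, ?_⟩
      rw [hmul, b.sum_repr]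
    · rintro ⟨u, rfl⟩
      show _ ∈ S
      rw [hmul]
      exact SetLike.coe_mem _
  · refine Matrix.ext fun i j => ?_
    have h1 : T *ᵥ (b j : Fin n → K) = (((Matrix.toLin' T).restrict hT (b j) : S) : Fin n → K) := rfl
    have h2 : (T * Matrix.of fun i j => (b j : Fin n → K) i) i j = (T *ᵥ (b j : Fin n → K)) i := rfl
    have h3 : ((Matrix.of fun i j => (b j : Fin n → K) i) *
        LinearMap.toMatrix b b ((Matrix.toLin' T).restrict hT)) i j =
        ((Matrix.of fun i j => (b j : Fin n → K) i) *ᵥ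
          (fun l => LinearMap.toMatrix b b ((Matrix.toLin' T).restrict hT) l j)) i := rfl
    have h4 : (∑ l, b.repr ((Matrix.toLin' T).restrict hT (b j) : S) l • b l) =
        ((Matrix.toLin' T).restrict hT (b j) : S) := b.sum_repr _
    have h5 : ((Matrix.toLin' T).restrict hT (b j) : S) =
        ∑ l, LinearMap.toMatrix b b ((Matrix.toLin' T).restrict hT) l j • b l := by
      refine h4.symm.trans (Finset.sum_congr rfl fun l _ => ?_)
      rw [LinearMap.toMatrix_apply]
    rw [h2, h3, hmul, h1]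
    exact congrArg (fun y : S => (y : Fin n → K) i) h5

end sub

/-! ### the representation given by matrices -/

section rep

variable {K : Type} [Field K] {G : WeilGroup} {n : ℕ}

/-- the representation on `K ^ n` -/
def toF (ρ : Rep G K n) : FRep K G where
  V := Fin n → K
  ρ := (MonoidHomClass.toMonoidHom (Matrix.toLinAlgEquiv' (R := K) (n := Fin n))).comp ρ

variable (ρ : Rep G K n)

theorem toF_pow (σ : G.W) (m : ℕ) (v : Fin n → K) :
    ((((toF ρ).ρ σ - 1) ^ m) (v : (toF ρ).V) : Fin n → K) = ((ρ σ - 1) ^ m) *ᵥ v := by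
  have h : ((toF ρ).ρ σ - 1) ^ m = Matrix.toLinAlgEquiv' ((ρ σ - 1) ^ m) := by
    rw [map_pow, map_sub, map_one]
    rfl
  exact LinearMap.congr_fun h v

theorem ker_iff (m : ℕ) (v : Fin n → K) : Ker G ρ m v ↔ v ∈ ((toF ρ).mker m : Submodule K (toF ρ).V) := by
  constructor
  · rintro ⟨J, hJ, h⟩
    exact ⟨J, hJ, fun σ hσ => (toF_pow ρ σ m v).trans (h σ hσ)⟩
  · rintro ⟨J, hJ, h⟩
    exact ⟨J, hJ, fun σ hσ => (toF_pow ρ σ m v).symm.trans (h σ hσ)⟩

theorem ker_fun (m : ℕ) : Ker G ρ m = fun v => v ∈ ((toF ρ).mker m : Submodule K (toF ρ).V) :=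
  funext fun v => propext (ker_iff ρ m v)

theorem inv_fun : Inv G ρ = fun v => v ∈ ((toF ρ).inv : Submodule K (toF ρ).V) := rfl

theorem trace_ker {k : ℕ} {C : Matrix (Fin k) (Fin k) K} {m : ℕ} {w : G.W}
    (h : OnSub (Ker G ρ m) (ρ w) C) : C.trace = (toF ρ).tr m w := by
  rw [ker_fun] at h
  exact onSub_trace h ((toF ρ).mker_stable m w)

theorem exists_ker (m : ℕ) (w : G.W) :
    ∃ (k : ℕ) (C : Matrix (Fin k) (Fin k) K), OnSub (Ker G ρ m) (ρ w) C := by
  rw [ker_fun]
  exact onSub_exists _ _ ((toF ρ).mker_stable m w)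

theorem eul_inv {k : ℕ} {C : Matrix (Fin k) (Fin k) K}
    (h : OnSub (Inv G ρ) (ρ G.frob) C) : C.charpolyRev = (toF ρ).eul := by
  rw [inv_fun] at h
  exact onSub_charpoly h ((toF ρ).inv_stable G.frob)

theorem exists_inv : ∃ (k : ℕ) (C : Matrix (Fin k) (Fin k) K), OnSub (Inv G ρ) (ρ G.frob) C := by
  rw [inv_fun]
  exact onSub_exists _ _ ((toF ρ).inv_stable G.frob)

theorem Mono.isMono {q : K} {c : G.W → K} {N : Matrix (Fin n) (Fin n) K}
    (h : Mono G q c ρ N) : IsMono q c (toF ρ) (Matrix.toLinAlgEquiv' N) := by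
  obtain ⟨⟨r, hr⟩, h1, J, hJ, h2⟩ := h
  refine ⟨⟨r, ?_⟩, ?_, J, hJ, fun σ hσ => ?_⟩
  · have h3 := congrArg (Matrix.toLinAlgEquiv' (R := K)) hr
    rw [map_pow, map_zero] at h3
    exact h3
  · intro w
    have h4 : ∀ u : Fin n → K, N *ᵥ (ρ w *ᵥ u) = q ^ G.d w • (ρ w *ᵥ (N *ᵥ u)) := by
      intro u
      rw [Matrix.mulVec_mulVec, h1 w, Matrix.smul_mulVec, ← Matrix.mulVec_mulVec]
    exact fun v => h4 v
  · obtain ⟨s, hs, h3⟩ := h2 σ hσ
    refine ⟨s, ?_, ?_⟩
    · have h4 := congrArg (Matrix.toLinAlgEquiv' (R := K)) hs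
      rw [map_pow, map_smul, map_zero] at h4
      exact h4
    · have h4 := congrArg (Matrix.toLinAlgEquiv' (R := K)) h3
      rw [map_sum] at h4
      refine Eq.trans (show (toF ρ).ρ σ = _ from h4) ?_
      refine Finset.sum_congr rfl fun i _ => ?_
      rw [map_smul, map_pow, map_smul]
      rfl

/-! ### the Künneth formulas -/

theorem conj_isIso {J : Type} [Fintype J] [DecidableEq J] {Z : G.W → Matrix J J K} {B : FRep K G}
    (h : Conj (fun w => ρ w) Z) (e' : (J → K) ≃ₗ[K] B.V)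
    (he : ∀ w x, e' (Z w *ᵥ x) = B.ρ w (e' x)) : (toF ρ).IsIso B := by
  obtain ⟨P, Q, h1, h2, h3⟩ := h
  have h4 : ∀ w, Q * ρ w = Z w * Q := by
    intro w
    calc Q * ρ w = Q * (ρ w * (P * Q)) := by rw [h1, mul_one]
      _ = Q * (ρ w * P) * Q := by rw [← Matrix.mul_assoc (ρ w), Matrix.mul_assoc Q]
      _ = Q * (P * Z w) * Q := by rw [h3]
      _ = Z w * Q := by rw [← Matrix.mul_assoc Q P, h2, Matrix.one_mul]
  let f : (Fin n → K) ≃ₗ[K] (J → K) := Matrix.toLin'OfInv h1 h2
  have key : ∀ (w : G.W) (u : Fin n → K), Q *ᵥ (ρ w *ᵥ u) = Z w *ᵥ (Q *ᵥ u) := by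
    intro w u
    rw [Matrix.mulVec_mulVec, Matrix.mulVec_mulVec, h4]
  refine ⟨(f.trans e' : (Fin n → K) ≃ₗ[K] B.V), fun w v => ?_⟩
  show e' (Q *ᵥ (ρ w *ᵥ (v : Fin n → K))) = B.ρ w (e' (Q *ᵥ (v : Fin n → K)))
  rw [← he]
  exact congrArg e' (key w v)

end rep

section kunneth

variable {K : Type} [Field K] {G : WeilGroup} {y a b c : ℕ}

theorem line_isIso {q : K} (hq : q ≠ 0) {Y : Rep G K y} {A : Rep G K a} {C : Rep G K c}
    (h : IsProdLine G q Y A C) :
    (toF Y).IsIso ((toF A).prod (FRep.twist q hq (toF C))) := by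
  refine conj_isIso Y h (B := (toF A).prod (FRep.twist q hq (toF C)))
    (LinearEquiv.sumArrowLequivProdArrow (Fin a) (Fin c) K K) fun w x => ?_
  unfold sumMat twistMat
  rw [Matrix.fromBlocks_mulVec, Matrix.zero_mulVec, Matrix.zero_mulVec, add_zero, zero_add,
    Matrix.smul_mulVec]
  rfl

theorem tate_isIso {q : K} (hq : q ≠ 0) {κ : G.W → K} (hc : FRep.IsCocycle q κ)
    {Y : Rep G K y} {A : Rep G K a} {B : Rep G K b} {C : Rep G K c}
    (h : IsProdTate G q κ Y A B C) :
    (toF Y).IsIso (((toF A).prod (FRep.tate q hq κ hc (toF B))).prod (FRep.twist q hq (toF C))) := by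
  refine conj_isIso Y h
    (B := ((toF A).prod (FRep.tate q hq κ hc (toF B))).prod (FRep.twist q hq (toF C)))
    ((LinearEquiv.sumArrowLequivProdArrow (Fin a ⊕ (Fin b ⊕ Fin b)) (Fin c) K K).trans
      (LinearEquiv.prodCongr ((LinearEquiv.sumArrowLequivProdArrow (Fin a) (Fin b ⊕ Fin b) K K).trans
        (LinearEquiv.prodCongr (LinearEquiv.refl K _)
          (LinearEquiv.sumArrowLequivProdArrow (Fin b) (Fin b) K K)))
        (LinearEquiv.refl K _))) fun w x => ?_
  unfold sumMat tateMat twistMat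
  rw [Matrix.fromBlocks_mulVec, Matrix.fromBlocks_mulVec, Matrix.fromBlocks_mulVec,
    Matrix.zero_mulVec, Matrix.zero_mulVec, Matrix.zero_mulVec, Matrix.zero_mulVec,
    Matrix.zero_mulVec, add_zero, add_zero, zero_add, zero_add, zero_add, Matrix.smul_mulVec,
    Matrix.smul_mulVec, Matrix.smul_mulVec]
  rfl

theorem ord_isIso {q t : K} (hq : q ≠ 0)
    {Y : Rep G K y} {A : Rep G K a} {B : Rep G K b} {C : Rep G K c}
    (h : IsProdOrd G q t Y A B C) :
    (toF Y).IsIso (((toF A).prod (FRep.tens (unrRep G q t hq) (toF B))).prod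
      (FRep.twist q hq (toF C))) := by
  refine conj_isIso Y h
    (B := ((toF A).prod (FRep.tens (unrRep G q t hq) (toF B))).prod (FRep.twist q hq (toF C)))
    ((LinearEquiv.sumArrowLequivProdArrow (Fin a ⊕ (Fin 2 × Fin b)) (Fin c) K K).trans
      (LinearEquiv.prodCongr ((LinearEquiv.sumArrowLequivProdArrow (Fin a) (Fin 2 × Fin b) K K).trans
        (LinearEquiv.prodCongr (LinearEquiv.refl K _) (LinearEquiv.curry K K (Fin 2) (Fin b))))
        (LinearEquiv.refl K _))) fun w x => ?_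
  unfold sumMat twistMat
  rw [Matrix.fromBlocks_mulVec, Matrix.fromBlocks_mulVec,
    Matrix.zero_mulVec, Matrix.zero_mulVec, Matrix.zero_mulVec, Matrix.zero_mulVec,
    add_zero, add_zero, zero_add, zero_add, Matrix.smul_mulVec]
  refine Prod.ext (Prod.ext rfl ?_) rfl
  refine funext fun i => funext fun j => ?_
  show (ordMat G q t B w *ᵥ fun s => x (Sum.inl (Sum.inr s))) (i, j) =
    (∑ k, unrRep G q t hq w i k • (B w *ᵥ fun l => x (Sum.inl (Sum.inr (k, l))))) j
  have h1 : unrRep G q t hq w = (comp2 q t) ^ G.d w := by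
    unfold unrRep
    rw [MonoidHom.comp_apply, MonoidHom.comp_apply, zpowersHom_apply]
    show (((Matrix.GeneralLinearGroup.mkOfDetNeZero (comp2 q t) _) ^ (G.d w) :
      (Matrix (Fin 2) (Fin 2) K)ˣ) : Matrix (Fin 2) (Fin 2) K) = _
    rw [Matrix.coe_units_zpow]
    rfl
  rw [h1, Finset.sum_apply]
  unfold ordMat
  show ∑ s : Fin 2 × Fin b, (!![0, -q; 1, t] ^ G.d w) i s.1 * (B w) j s.2 * x (Sum.inl (Sum.inr s)) = _
  rw [Fintype.sum_prod_type]
  refine Finset.sum_congr rfl fun k _ => ?_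
  show _ = ((comp2 q t) ^ G.d w) i k * (∑ l, B w j l * x (Sum.inl (Sum.inr (k, l))))
  rw [Finset.mul_sum]
  refine Finset.sum_congr rfl fun l _ => ?_
  rw [mul_assoc]
  rfl

theorem perm_isIso {U : Subgroup G.W} [Finite (G.W ⧸ U)] {Y : Rep G K y} {A : Rep G K a}
    (h : IsProdField G U Y A) : (toF Y).IsIso (FRep.perm U (toF A)) := by
  classical
  have : Fintype (G.W ⧸ U) := Fintype.ofFinite _
  refine conj_isIso Y h (B := FRep.perm U (toF A)) (LinearEquiv.curry K K (G.W ⧸ U) (Fin a))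
    fun w x => ?_
  refine funext fun s => funext fun j => ?_
  show (permMat G U A w *ᵥ x) (s, j) = (A w *ᵥ fun l => x (w⁻¹ • s, l)) j
  have hpos : ∀ l, permMat G U A w (s, j) (w⁻¹ • s, l) = A w j l := fun l => if_pos rfl
  have hneg : ∀ t l, t ≠ w⁻¹ • s → permMat G U A w (s, j) (t, l) = 0 :=
    fun t l ht => if_neg ht
  show ∑ t : (G.W ⧸ U) × Fin a, permMat G U A w (s, j) t * x t =
    ∑ l, A w j l * x (w⁻¹ • s, l)
  rw [Fintype.sum_prod_type, Finset.sum_eq_single (w⁻¹ • s)]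
  · refine Finset.sum_congr rfl fun l _ => ?_
    rw [hpos]
  · intro t _ ht
    refine Finset.sum_eq_zero fun l _ => ?_
    rw [hneg t l ht, zero_mul]
  · intro h; exact absurd (Finset.mem_univ _) h

end kunneth

end Pool.Agent.R912.LI
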