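import Pool.Agent.R912.LI.Ops

set_option autoImplicit false
set_option linter.unusedSectionVars false
set_option linter.unusedVariables false

/-!
# The monodromy operator and the Tate curve
-/

open Module

namespace Pool.Agent.R912.LI

/-- `e` is the exponential of the nilpotent endomorphism `x` -/
def IsExp {K V : Type} [Field K] [AddCommGroup V] [Module K V] (x e : Module.End K V) : Prop :=
  ∃ n : ℕ, x ^ (n + 1) = 0 ∧ e = ∑ i ∈ Finset.range (n + 1), ((i.factorial : K)⁻¹) • x ^ i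

/-- `N` is the monodromy operator of `A`: it is nilpotent, `N w = q ^ d(w) w N`, and `σ = exp (c(σ) N)`
for all `σ` in an open subgroup of the inertia group. -/
def IsMono {K : Type} [Field K] {G : WeilGroup} (q : K) (c : G.W → K) (A : FRep K G)
    (N : Module.End K A.V) : Prop :=
  (∃ r, N ^ r = 0) ∧ (∀ w v, N (A.ρ w v) = q ^ G.d w • A.ρ w (N v)) ∧
    ∃ J ∈ G.inert, ∀ σ ∈ J, IsExp (c σ • N) (A.ρ σ)

section exp

variable {K V : Type} [Field K] [CharZero K] [AddCommGroup V] [Module K V]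

/-- an exponential of a nilpotent `x` minus one is `x` times a unit commuting with `x` -/
theorem IsExp.unit {x e : Module.End K V} (h : IsExp x e) :
    ∃ u : Module.End K V, IsUnit u ∧ Commute x u ∧ e - 1 = x * u := by
  obtain ⟨n, hn, he⟩ := h
  refine ⟨∑ i ∈ Finset.range (n + 1), (((i + 1).factorial : K)⁻¹) • x ^ i, ?_, ?_, ?_⟩
  · rw [Finset.sum_range_succ']
    have h1 : IsNilpotent (∑ i ∈ Finset.range n, (((i + 1 + 1).factorial : K)⁻¹) • x ^ (i + 1)) := by
      have h2 : (∑ i ∈ Finset.range n, (((i + 1 + 1).factorial : K)⁻¹) • x ^ (i + 1)) =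
          x * ∑ i ∈ Finset.range n, (((i + 1 + 1).factorial : K)⁻¹) • x ^ i := by
        rw [Finset.mul_sum]
        refine Finset.sum_congr rfl fun i _ => ?_
        rw [mul_smul_comm, ← pow_succ']
      rw [h2]
      refine Commute.isNilpotent_mul_right ?_ ⟨n + 1, hn⟩
      exact Commute.sum_right _ _ _ fun i _ => (Commute.pow_right (Commute.refl x) i).smul_right _
    have h3 : (((0 + 1).factorial : K)⁻¹) • x ^ 0 = 1 := by simp
    rw [h3]
    exact h1.isUnit_add_one
  · exact Commute.sum_right _ _ _ fun i _ => (Commute.pow_right (Commute.refl x) i).smul_right _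
  · rw [he, Finset.sum_range_succ', Finset.mul_sum, Finset.sum_range_succ]
    have h3 : (((0 : ℕ).factorial : K)⁻¹) • x ^ 0 = 1 := by simp
    rw [h3, mul_smul_comm, ← pow_succ', hn, smul_zero, add_zero, add_sub_cancel_right]
    refine Finset.sum_congr rfl fun i _ => ?_
    rw [mul_smul_comm, ← pow_succ']

theorem IsExp.pow {x e : Module.End K V} (h : IsExp x e) (m : ℕ) (v : V) :
    ((e - 1) ^ m) v = 0 ↔ (x ^ m) v = 0 := by
  obtain ⟨u, hu, hc, he⟩ := h.unit
  have h1 : (e - 1) ^ m = u ^ m * x ^ m := by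
    rw [he, hc.mul_pow, (hc.pow_pow m m).eq]
  have hum : IsUnit (u ^ m) := hu.pow m
  obtain ⟨t, ht⟩ := hum
  rw [h1, Module.End.mul_apply]
  constructor
  · intro h
    have h2 := congrArg ((↑t⁻¹ : Module.End K V)) h
    rw [map_zero, ← Module.End.mul_apply, ← ht, Units.inv_mul, Module.End.one_apply] at h2
    exact h2
  · intro h
    rw [h, map_zero]

end exp

namespace FRep

variable {K : Type} [Field K] [CharZero K] {G : WeilGroup}

/-- the vectors of `mker m` are the vectors killed by `N ^ m` -/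
theorem mem_mker_mono {q : K} {c : G.W → K} (hc : ∀ J ∈ G.inert, ∃ σ ∈ J, c σ ≠ 0) {A : FRep K G}
    {N : Module.End K A.V} (hN : IsMono q c A N) (m : ℕ) (v : A.V) :
    v ∈ A.mker m ↔ (N ^ m) v = 0 := by
  obtain ⟨-, -, J, hJ, hx⟩ := hN
  have key : ∀ σ ∈ J, ((A.ρ σ - 1) ^ m) v = 0 ↔ c σ ^ m • (N ^ m) v = 0 := by
    intro σ hσ
    rw [(hx σ hσ).pow, smul_pow, LinearMap.smul_apply]
  constructor
  · rintro ⟨J', hJ', h⟩
    obtain ⟨J'', hJ'', h1, h2⟩ := G.directed J hJ J' hJ'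
    obtain ⟨σ, hσ, hne⟩ := hc J'' hJ''
    have h3 := (key σ (h1 hσ)).1 (h σ (h2 hσ))
    exact (smul_eq_zero.1 h3).resolve_left (pow_ne_zero m hne)
  · intro h
    exact ⟨J, hJ, fun σ hσ => (key σ hσ).2 (by rw [h, smul_zero])⟩

/-- the operator `N'` on the tensor product with `H^1` of the Tate curve -/
def tateN (A : FRep K G) (N : Module.End K A.V) : Module.End K (A.V × A.V) where
  toFun v := (N v.1 + v.2, N v.2)
  map_add' u v := by
    refine Prod.ext ?_ ?_
    · show N (u.1 + v.1) + (u.2 + v.2) = (N u.1 + u.2) + (N v.1 + v.2)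
      rw [map_add]; abel
    · show N (u.2 + v.2) = N u.2 + N v.2
      rw [map_add]
  map_smul' r v := by
    refine Prod.ext ?_ ?_
    · show N (r • v.1) + r • v.2 = r • (N v.1 + v.2)
      rw [map_smul, smul_add]
    · show N (r • v.2) = r • N v.2
      rw [map_smul]

theorem tateN_apply (A : FRep K G) (N : Module.End K A.V) (v : A.V × A.V) :
    A.tateN N v = (N v.1 + v.2, N v.2) := rfl

theorem tateN_pow (A : FRep K G) (N : Module.End K A.V) (m : ℕ) (v : A.V × A.V) :
    ((A.tateN N) ^ m) v = ((N ^ m) v.1 + (m : K) • (N ^ (m - 1)) v.2, (N ^ m) v.2) := by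
  induction m with
  | zero => simp
  | succ m ih =>
    rw [pow_succ', Module.End.mul_apply, ih, tateN_apply]
    refine Prod.ext ?_ ?_
    · show N ((N ^ m) v.1 + (m : K) • (N ^ (m - 1)) v.2) + (N ^ m) v.2 =
        (N ^ (m + 1)) v.1 + ((m + 1 : ℕ) : K) • (N ^ (m + 1 - 1)) v.2
      rw [map_add, map_smul, pow_succ', Module.End.mul_apply, Nat.add_sub_cancel, Nat.cast_succ,
        add_smul, one_smul, add_assoc]
      congr 2
      cases m with
      | zero => simp
      | succ k => rw [Nat.add_sub_cancel, pow_succ' N k, Module.End.mul_apply]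
    · show N ((N ^ m) v.2) = (N ^ (m + 1)) v.2
      rw [pow_succ', Module.End.mul_apply]

theorem tate_mono {q : K} (hq : q ≠ 0) {c : G.W → K} (hc : IsCocycle q c) {A : FRep K G}
    {N : Module.End K A.V} (hN : IsMono q c A N) :
    IsMono q c (tate q hq c hc A) (A.tateN N) := by
  obtain ⟨⟨r, hr⟩, hcomm, J, hJ, hx⟩ := hN
  refine ⟨⟨r + 1, ?_⟩, ?_, J, hJ, ?_⟩
  · refine LinearMap.ext fun v => (tateN_pow A N (r + 1) v).trans ?_
    rw [Nat.add_sub_cancel, pow_succ, hr, zero_mul]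
    refine Prod.ext ?_ ?_
    · show (0 : Module.End K A.V) v.1 + ((r + 1 : ℕ) : K) • (0 : Module.End K A.V) v.2 = 0
      rw [LinearMap.zero_apply, LinearMap.zero_apply, smul_zero, add_zero]
    · rfl
  · intro w v
    refine Prod.ext ?_ ?_
    · show N (A.ρ w v.1 + c w • A.ρ w v.2) + q ^ G.d w • A.ρ w v.2 =
        q ^ G.d w • (A.ρ w (N v.1 + v.2) + c w • A.ρ w (N v.2))
      rw [map_add, map_smul, hcomm, hcomm, map_add, smul_add, smul_add, smul_comm (c w)]
      abel
    · show N (q ^ G.d w • A.ρ w v.2) = q ^ G.d w • (q ^ G.d w • A.ρ w (N v.2))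
      rw [map_smul, hcomm]
  · intro σ hσ
    obtain ⟨n, hn, he⟩ := hx σ hσ
    have hd : G.d σ = 0 := G.mem_ker.1 (G.le_ker J hJ hσ)
    have hpow : ∀ (i : ℕ) (v : A.V × A.V), ((c σ • A.tateN N) ^ i) v =
        (((c σ • N) ^ i) v.1 + (i : K) • c σ • ((c σ • N) ^ (i - 1)) v.2, ((c σ • N) ^ i) v.2) := by
      intro i v
      rw [smul_pow, LinearMap.smul_apply, tateN_pow, smul_pow, smul_pow, LinearMap.smul_apply,
        LinearMap.smul_apply, LinearMap.smul_apply]
      refine Prod.ext ?_ ?_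
      · show c σ ^ i • ((N ^ i) v.1 + (i : K) • (N ^ (i - 1)) v.2) =
          c σ ^ i • (N ^ i) v.1 + (i : K) • c σ • c σ ^ (i - 1) • (N ^ (i - 1)) v.2
        rw [smul_add]
        congr 1
        cases i with
        | zero => simp
        | succ k =>
          rw [Nat.add_sub_cancel, smul_comm, smul_smul (c σ), ← pow_succ']
      · rfl
    refine ⟨n + 1, ?_, ?_⟩
    · refine LinearMap.ext fun v => (hpow (n + 1 + 1) v).trans ?_
      rw [Nat.add_sub_cancel, pow_succ _ (n + 1), hn, zero_mul]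
      refine Prod.ext ?_ ?_
      · show (0 : Module.End K A.V) v.1 + ((n + 1 + 1 : ℕ) : K) • c σ • (0 : Module.End K A.V) v.2 = 0
        rw [LinearMap.zero_apply, LinearMap.zero_apply, smul_zero, smul_zero, add_zero]
      · rfl
    · suffices main : ∀ v : A.V × A.V,
          ((A.ρ σ v.1 + c σ • A.ρ σ v.2, q ^ G.d σ • A.ρ σ v.2) : A.V × A.V) =
          (∑ i ∈ Finset.range (n + 1 + 1), (((i.factorial : K)⁻¹) • (c σ • A.tateN N) ^ i) :
            Module.End K (A.V × A.V)) v from LinearMap.ext fun v => main v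
      intro v
      rw [LinearMap.sum_apply]
      have h1 : ∀ i : ℕ, (((i.factorial : K)⁻¹) • (c σ • A.tateN N) ^ i) v =
          ((((i.factorial : K)⁻¹) • ((c σ • N) ^ i)) v.1 +
            ((i.factorial : K)⁻¹ * (i : K)) • c σ • ((c σ • N) ^ (i - 1)) v.2,
            (((i.factorial : K)⁻¹) • ((c σ • N) ^ i)) v.2) := by
        intro i
        rw [LinearMap.smul_apply, hpow]
        refine Prod.ext ?_ ?_
        · show ((i.factorial : K)⁻¹) • (((c σ • N) ^ i) v.1 + (i : K) • c σ • ((c σ • N) ^ (i - 1)) v.2)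
            = ((i.factorial : K)⁻¹) • ((c σ • N) ^ i) v.1 +
              ((i.factorial : K)⁻¹ * (i : K)) • c σ • ((c σ • N) ^ (i - 1)) v.2
          rw [smul_add, smul_smul]
        · rfl
      have h2 : ∀ v : A.V, A.ρ σ v = ∑ i ∈ Finset.range (n + 1 + 1),
          (((i.factorial : K)⁻¹) • ((c σ • N) ^ i)) v := by
        intro v
        rw [Finset.sum_range_succ, hn, smul_zero, LinearMap.zero_apply, add_zero, he,
          LinearMap.sum_apply]
      have h3 : ∀ v : A.V, c σ • A.ρ σ v = ∑ i ∈ Finset.range (n + 1 + 1),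
          ((i.factorial : K)⁻¹ * (i : K)) • c σ • ((c σ • N) ^ (i - 1)) v := by
        intro v
        rw [Finset.sum_range_succ', he, LinearMap.sum_apply, Finset.smul_sum]
        have h4 : (((0 : ℕ).factorial : K)⁻¹ * ((0 : ℕ) : K)) • c σ • ((c σ • N) ^ (0 - 1)) v = 0 := by
          simp
        rw [h4, add_zero]
        refine Finset.sum_congr rfl fun i _ => ?_
        have h5 : ((i + 1).factorial : K)⁻¹ * ((i + 1 : ℕ) : K) = (i.factorial : K)⁻¹ := by
          rw [Nat.factorial_succ, Nat.cast_mul]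
          have h6 : ((i + 1 : ℕ) : K) ≠ 0 := Nat.cast_ne_zero.2 (Nat.succ_ne_zero i)
          have h7 : (i.factorial : K) ≠ 0 := Nat.cast_ne_zero.2 (Nat.factorial_ne_zero i)
          field_simp
        rw [h5, Nat.add_sub_cancel, LinearMap.smul_apply, smul_comm]
      refine Prod.ext ?_ ?_
      · show A.ρ σ v.1 + c σ • A.ρ σ v.2 = _
        rw [Prod.fst_sum, h2, h3, ← Finset.sum_add_distrib]
        refine Finset.sum_congr rfl fun i _ => ?_
        rw [h1]
      · show q ^ G.d σ • A.ρ σ v.2 = _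
        rw [Prod.snd_sum, hd, zpow_zero, one_smul, h2]
        refine Finset.sum_congr rfl fun i _ => ?_
        rw [h1]

/-- The trace on the kernel of `N' ^ m` for the tensor product with `H^1` of the Tate curve. -/
theorem tr_tate {q : K} (hq : q ≠ 0) {c : G.W → K} (hc : IsCocycle q c)
    (hcn : ∀ J ∈ G.inert, ∃ σ ∈ J, c σ ≠ 0) {A : FRep K G}
    {N : Module.End K A.V} (hN : IsMono q c A N) (w : G.W) (hw : q ^ G.d w ≠ 1) (m : ℕ) :
    (tate q hq c hc A).tr (m + 1) w = A.tr (m + 2) w + q ^ G.d w * A.tr m w := by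
  have hN' := tate_mono hq hc hN
  have hA : ∀ n v, v ∈ A.mker n ↔ (N ^ n) v = 0 := fun n v => mem_mker_mono hcn hN n v
  have hT : ∀ v : (tate q hq c hc A).V, v ∈ (tate q hq c hc A).mker (m + 1) ↔
      (N ^ (m + 1)) v.1 + ((m + 1 : ℕ) : K) • (N ^ m) v.2 = 0 ∧ (N ^ (m + 1)) v.2 = 0 := by
    intro v
    rw [mem_mker_mono hcn hN' (m + 1) v]
    have h1 : ((A.tateN N) ^ (m + 1)) v = _ := tateN_pow A N (m + 1) v
    constructor
    · intro h
      have h' := h1.symm.trans h
      exact ⟨congrArg Prod.fst h', congrArg Prod.snd h'⟩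
    · rintro ⟨h2, h3⟩
      refine h1.trans ?_
      exact Prod.ext h2 h3
  have hm : ((m + 1 : ℕ) : K) ≠ 0 := Nat.cast_ne_zero.2 (Nat.succ_ne_zero m)
  set μ : K := ((m + 1 : ℕ) : K) with hμ
  set Q : K := q ^ G.d w with hQ
  have hQ1 : Q - 1 ≠ 0 := sub_ne_zero.2 hw
  set a : K := c w / (Q - 1) with ha
  have haQ : a * Q = a + c w := by
    rw [ha]; field_simp; ring
  have hcomm := hN.2.1
  -- the vector `v₁`
  have hsucc : ∀ v, (N ^ m) (N v) = (N ^ (m + 1)) v := by
    intro v; rw [pow_succ, Module.End.mul_apply]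
  have hsucc2 : ∀ v, (N ^ (m + 1)) (N v) = (N ^ (m + 2)) v := by
    intro v; rw [pow_succ _ (m + 1), Module.End.mul_apply]
  have hfor1 : ∀ x u : A.V, (N ^ (m + 1)) (x + a • (-(μ⁻¹ • N x) + u)) +
      μ • (N ^ m) (-(μ⁻¹ • N x) + u) = a • (N ^ (m + 1)) (-(μ⁻¹ • N x) + u) + μ • (N ^ m) u := by
    intro x u
    rw [map_add, map_smul, map_add (N ^ m), map_neg (N ^ m), map_smul (N ^ m), hsucc, smul_add μ,
      smul_neg, smul_smul μ, mul_inv_cancel₀ hm, one_smul]
    abel
  have hfor2 : ∀ x u : A.V, (N ^ (m + 1)) (-(μ⁻¹ • N x) + u) =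
      -(μ⁻¹ • (N ^ (m + 2)) x) + (N ^ (m + 1)) u := by
    intro x u
    rw [map_add, map_neg, map_smul, hsucc2]
  let e : (A.mker (m + 2) × A.mker m) ≃ₗ[K] (tate q hq c hc A).mker (m + 1) :=
    { toFun := fun p => ⟨(p.1.1 + a • (-(μ⁻¹ • N p.1.1) + p.2.1), -(μ⁻¹ • N p.1.1) + p.2.1), by
        have h1 := (hA _ _).1 p.1.2
        have h2 := (hA _ _).1 p.2.2
        have h3 : (N ^ (m + 1)) p.2.1 = 0 := by rw [pow_succ', Module.End.mul_apply, h2, map_zero]
        have h4 : (N ^ (m + 1)) (-(μ⁻¹ • N p.1.1) + p.2.1) = 0 := by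
          rw [hfor2, h1, h3, smul_zero, neg_zero, add_zero]
        refine (hT _).2 ⟨?_, h4⟩
        show (N ^ (m + 1)) (p.1.1 + a • (-(μ⁻¹ • N p.1.1) + p.2.1)) +
          μ • (N ^ m) (-(μ⁻¹ • N p.1.1) + p.2.1) = 0
        rw [hfor1, h4, h2, smul_zero, smul_zero, add_zero]⟩
      map_add' := fun p p' => by
        refine Subtype.ext (Prod.ext ?_ ?_)
        · show (p.1.1 + p'.1.1) + a • (-(μ⁻¹ • N (p.1.1 + p'.1.1)) + (p.2.1 + p'.2.1)) =
            (p.1.1 + a • (-(μ⁻¹ • N p.1.1) + p.2.1)) + (p'.1.1 + a • (-(μ⁻¹ • N p'.1.1) + p'.2.1))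
          rw [map_add]; module
        · show -(μ⁻¹ • N (p.1.1 + p'.1.1)) + (p.2.1 + p'.2.1) =
            (-(μ⁻¹ • N p.1.1) + p.2.1) + (-(μ⁻¹ • N p'.1.1) + p'.2.1)
          rw [map_add]; module
      map_smul' := fun r p => by
        refine Subtype.ext (Prod.ext ?_ ?_)
        · show (r • p.1.1) + a • (-(μ⁻¹ • N (r • p.1.1)) + (r • p.2.1)) =
            r • (p.1.1 + a • (-(μ⁻¹ • N p.1.1) + p.2.1))
          rw [map_smul]; module
        · show -(μ⁻¹ • N (r • p.1.1)) + (r • p.2.1) = r • (-(μ⁻¹ • N p.1.1) + p.2.1)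
          rw [map_smul]; module
      invFun := fun v => (⟨v.1.1 - a • v.1.2, by
          obtain ⟨h1, h2⟩ := (hT v.1).1 v.2
          rw [hA]
          have h3 : (N ^ (m + 1)) (v.1.1 - a • v.1.2) = -(μ • (N ^ m) v.1.2) := by
            rw [map_sub, map_smul, h2, smul_zero, sub_zero]
            exact eq_neg_of_add_eq_zero_left h1
          rw [pow_succ', Module.End.mul_apply, h3, map_neg, map_smul, ← Module.End.mul_apply,
            ← pow_succ', h2, smul_zero, neg_zero]⟩,
        ⟨v.1.2 + μ⁻¹ • N (v.1.1 - a • v.1.2), by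
          obtain ⟨h1, h2⟩ := (hT v.1).1 v.2
          rw [hA]
          have h3 : (N ^ (m + 1)) (v.1.1 - a • v.1.2) = -(μ • (N ^ m) v.1.2) := by
            rw [map_sub, map_smul, h2, smul_zero, sub_zero]
            exact eq_neg_of_add_eq_zero_left h1
          rw [map_add, map_smul, hsucc, h3, smul_neg, smul_smul, inv_mul_cancel₀ hm, one_smul,
            add_neg_cancel]⟩)
      left_inv := fun p => by
        refine Prod.ext (Subtype.ext ?_) (Subtype.ext ?_)
        · show (p.1.1 + a • (-(μ⁻¹ • N p.1.1) + p.2.1)) - a • (-(μ⁻¹ • N p.1.1) + p.2.1) = p.1.1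
          abel
        · show (-(μ⁻¹ • N p.1.1) + p.2.1) + μ⁻¹ • N ((p.1.1 + a • (-(μ⁻¹ • N p.1.1) + p.2.1)) -
            a • (-(μ⁻¹ • N p.1.1) + p.2.1)) = p.2.1
          rw [add_sub_cancel_right]; abel
      right_inv := fun v => by
        have h1 : -(μ⁻¹ • N (v.1.1 - a • v.1.2)) + (v.1.2 + μ⁻¹ • N (v.1.1 - a • v.1.2)) = v.1.2 := by
          abel
        refine Subtype.ext (Prod.ext ?_ ?_)
        · show (v.1.1 - a • v.1.2) + a • (-(μ⁻¹ • N (v.1.1 - a • v.1.2)) +
            (v.1.2 + μ⁻¹ • N (v.1.1 - a • v.1.2))) = v.1.1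
          rw [h1]; abel
        · exact h1 }
  have h1 := trace_eq_of_equiv e ((A.act (m + 2) w).prodMap (Q • A.act m w))
    ((tate q hq c hc A).act (m + 1) w) (fun p => by
      have h2 : -(μ⁻¹ • N (A.ρ w p.1.1)) + Q • A.ρ w p.2.1 =
          Q • A.ρ w (-(μ⁻¹ • N p.1.1) + p.2.1) := by
        rw [hcomm, map_add, map_neg, map_smul, smul_add, smul_neg, smul_comm Q μ⁻¹]
      refine Subtype.ext (Prod.ext ?_ ?_)
      · show A.ρ w p.1.1 + a • (-(μ⁻¹ • N (A.ρ w p.1.1)) + Q • A.ρ w p.2.1) =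
          A.ρ w (p.1.1 + a • (-(μ⁻¹ • N p.1.1) + p.2.1)) +
            c w • A.ρ w (-(μ⁻¹ • N p.1.1) + p.2.1)
        rw [h2, smul_smul, haQ, add_smul, map_add (A.ρ w) (p.1.1 : A.V), map_smul (A.ρ w) a, add_assoc]
      · exact h2)
  unfold tr
  rw [← h1, LinearMap.trace_prodMap', map_smul, smul_eq_mul]

end FRep

end Pool.Agent.R912.LI
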