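import Pool.Agent.R912.LI.Base

set_option autoImplicit false
set_option linter.unusedSectionVars false
set_option linter.unusedVariables false

/-!
# Operations on representations of the Weil group
-/

open Module

namespace Pool.Agent.R912.LI

namespace FRep

variable {K : Type} [Field K] {G : WeilGroup}

/-- direct sum -/
def prod (A B : FRep K G) : FRep K G where
  V := A.V × B.V
  ρ := { toFun := fun w => (A.ρ w).prodMap (B.ρ w)
         map_one' := by ext <;> simp
         map_mul' := fun w w' => by ext <;> simp }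

@[simp] theorem prod_ρ (A B : FRep K G) (w : G.W) (v : A.V × B.V) :
    (A.prod B).ρ w v = (A.ρ w v.1, B.ρ w v.2) := rfl

/-- the Tate twist `A(-1)`: a geometric Frobenius is multiplied by `p` -/
def twist (q : K) (hq : q ≠ 0) (A : FRep K G) : FRep K G where
  V := A.V
  ρ := { toFun := fun w => q ^ G.d w • A.ρ w
         map_one' := by rw [G.d_one, zpow_zero, one_smul, map_one]
         map_mul' := fun w w' => by
          rw [G.d_mul, zpow_add₀ hq, map_mul, smul_mul_smul_comm] }

@[simp] theorem twist_ρ (q : K) (hq : q ≠ 0) (A : FRep K G) (w : G.W) (v : A.V) :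
    (twist q hq A).ρ w v = q ^ G.d w • A.ρ w v := rfl

/-- a cocycle for the extension `0 → K → H^1(E) → K(-1) → 0` -/
def IsCocycle (q : K) (c : G.W → K) : Prop := ∀ w w', c (w * w') = c w' + q ^ G.d w' * c w

/-- The tensor product with the first cohomology `H^1(E)` of a Tate curve: `H^1(E)` has a basis
`e₀, e₁` with `w e₀ = e₀` and `w e₁ = q ^ d(w) e₁ + c(w) e₀`; the pair `(v₀, v₁)` is
`v₀ ⊗ e₀ + v₁ ⊗ e₁`. -/
def tate (q : K) (hq : q ≠ 0) (c : G.W → K) (hc : IsCocycle q c) (A : FRep K G) : FRep K G where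
  V := A.V × A.V
  ρ := { toFun := fun w =>
          { toFun := fun v => (A.ρ w v.1 + c w • A.ρ w v.2, q ^ G.d w • A.ρ w v.2)
            map_add' := fun u v => by
              refine Prod.ext ?_ ?_
              · show A.ρ w (u.1 + v.1) + c w • A.ρ w (u.2 + v.2) = (A.ρ w u.1 + c w • A.ρ w u.2) +
                  (A.ρ w v.1 + c w • A.ρ w v.2)
                rw [map_add, map_add, smul_add]; abel
              · show q ^ G.d w • A.ρ w (u.2 + v.2) = q ^ G.d w • A.ρ w u.2 + q ^ G.d w • A.ρ w v.2
                rw [map_add, smul_add]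
            map_smul' := fun r v => by
              refine Prod.ext ?_ ?_
              · show A.ρ w (r • v.1) + c w • A.ρ w (r • v.2) = r • (A.ρ w v.1 + c w • A.ρ w v.2)
                rw [map_smul, map_smul, smul_add, smul_comm]
              · show q ^ G.d w • A.ρ w (r • v.2) = r • (q ^ G.d w • A.ρ w v.2)
                rw [map_smul, smul_comm] }
         map_one' := by
          have h := hc 1 1
          rw [mul_one, G.d_one, zpow_zero, one_mul] at h
          have h0 : c 1 = 0 := by linear_combination -h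
          refine LinearMap.ext fun v => Prod.ext ?_ ?_
          · show A.ρ 1 v.1 + c 1 • A.ρ 1 v.2 = v.1
            rw [h0, zero_smul, add_zero, map_one]; rfl
          · show q ^ G.d 1 • A.ρ 1 v.2 = v.2
            rw [G.d_one, zpow_zero, one_smul, map_one]; rfl
         map_mul' := fun w w' => by
          refine LinearMap.ext fun v => Prod.ext ?_ ?_
          · show A.ρ (w * w') v.1 + c (w * w') • A.ρ (w * w') v.2 =
              A.ρ w (A.ρ w' v.1 + c w' • A.ρ w' v.2) + c w • A.ρ w (q ^ G.d w' • A.ρ w' v.2)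
            rw [map_mul, hc, map_add, map_smul, map_smul, Module.End.mul_apply,
              Module.End.mul_apply, smul_smul, mul_comm (c w), add_smul, add_assoc]
          · show q ^ G.d (w * w') • A.ρ (w * w') v.2 =
              q ^ G.d w • A.ρ w (q ^ G.d w' • A.ρ w' v.2)
            rw [G.d_mul, zpow_add₀ hq, map_mul, map_smul, Module.End.mul_apply, smul_smul] }

@[simp] theorem tate_ρ (q : K) (hq : q ≠ 0) (c : G.W → K) (hc : IsCocycle q c) (A : FRep K G)
    (w : G.W) (v : A.V × A.V) :
    (tate q hq c hc A).ρ w v = (A.ρ w v.1 + c w • A.ρ w v.2, q ^ G.d w • A.ρ w v.2) := rfl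

/-- The tensor product with the permutation representation on `W / U`: functions on `W / U` with values
in the representation. -/
def perm (U : Subgroup G.W) [Finite (G.W ⧸ U)] (A : FRep K G) : FRep K G where
  V := G.W ⧸ U → A.V
  ρ := { toFun := fun w =>
          { toFun := fun f x => A.ρ w (f (w⁻¹ • x))
            map_add' := fun f g => by
              refine funext fun x => ?_
              show A.ρ w (f (w⁻¹ • x) + g (w⁻¹ • x)) = _
              rw [map_add]; rfl
            map_smul' := fun r f => by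
              refine funext fun x => ?_
              show A.ρ w (r • f (w⁻¹ • x)) = _
              rw [map_smul]; rfl }
         map_one' := by
          refine LinearMap.ext fun f => funext fun x => ?_
          show A.ρ 1 (f ((1 : G.W)⁻¹ • x)) = f x
          rw [map_one, inv_one, one_smul]; rfl
         map_mul' := fun w w' => by
          refine LinearMap.ext fun f => funext fun x => ?_
          show A.ρ (w * w') (f ((w * w')⁻¹ • x)) = A.ρ w (A.ρ w' (f (w'⁻¹ • w⁻¹ • x)))
          rw [map_mul, mul_inv_rev, mul_smul]; rfl }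

@[simp] theorem perm_ρ (U : Subgroup G.W) [Finite (G.W ⧸ U)] (A : FRep K G) (w : G.W)
    (f : G.W ⧸ U → A.V) (x : G.W ⧸ U) : (perm U A).ρ w f x = A.ρ w (f (w⁻¹ • x)) := rfl

/-! ### traces -/

theorem tr_prod (A B : FRep K G) (m : ℕ) (w : G.W) :
    (A.prod B).tr m w = A.tr m w + B.tr m w := by
  have key : ∀ (σ : G.W) (n : ℕ) (v : (A.prod B).V), (((A.prod B).ρ σ - 1) ^ n) v =
      (((A.ρ σ - 1) ^ n) v.1, ((B.ρ σ - 1) ^ n) v.2) := by
    intro σ n
    induction n with
    | zero => intro v; rfl
    | succ n ih =>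
      intro v
      rw [pow_succ', Module.End.mul_apply, ih, pow_succ', pow_succ', Module.End.mul_apply,
        Module.End.mul_apply]
      rfl
  have hmem : ∀ v : (A.prod B).V, v ∈ (A.prod B).mker m ↔ v.1 ∈ A.mker m ∧ v.2 ∈ B.mker m := by
    intro v
    constructor
    · rintro ⟨J, hJ, h⟩
      refine ⟨⟨J, hJ, fun σ hσ => ?_⟩, ⟨J, hJ, fun σ hσ => ?_⟩⟩
      · have h1 := h σ hσ
        rw [key] at h1
        exact congrArg Prod.fst h1
      · have h1 := h σ hσ
        rw [key] at h1
        exact congrArg Prod.snd h1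
    · rintro ⟨⟨J, hJ, h⟩, ⟨J', hJ', h'⟩⟩
      obtain ⟨J'', hJ'', h1, h2⟩ := G.directed J hJ J' hJ'
      exact ⟨J'', hJ'', fun σ hσ => by rw [key, h σ (h1 hσ), h' σ (h2 hσ)]; rfl⟩
  let e : (A.prod B).mker m ≃ₗ[K] A.mker m × B.mker m :=
    { toFun := fun v => (⟨v.1.1, ((hmem v.1).1 v.2).1⟩, ⟨v.1.2, ((hmem v.1).1 v.2).2⟩)
      map_add' := fun u v => rfl
      map_smul' := fun r v => rfl
      invFun := fun v => ⟨(v.1.1, v.2.1), (hmem _).2 ⟨v.1.2, v.2.2⟩⟩
      left_inv := fun v => rfl
      right_inv := fun v => rfl }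
  have h1 := trace_eq_of_equiv e ((A.prod B).act m w) ((A.act m w).prodMap (B.act m w))
    (fun v => rfl)
  unfold tr
  rw [h1, LinearMap.trace_prodMap']

theorem tr_twist (q : K) (hq : q ≠ 0) (A : FRep K G) (m : ℕ) (w : G.W) :
    (twist q hq A).tr m w = q ^ G.d w * A.tr m w := by
  have key : ∀ σ : G.W, G.d σ = 0 → (twist q hq A).ρ σ = A.ρ σ := by
    intro σ hσ
    refine LinearMap.ext fun v => ?_
    show q ^ G.d σ • A.ρ σ v = A.ρ σ v
    rw [hσ, zpow_zero, one_smul]
  have hmem : ∀ v : A.V, v ∈ (twist q hq A).mker m ↔ v ∈ A.mker m := by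
    intro v
    constructor
    · rintro ⟨J, hJ, h⟩
      refine ⟨J, hJ, fun σ hσ => ?_⟩
      have h1 := h σ hσ
      rw [key σ (G.mem_ker.1 (G.le_ker J hJ hσ))] at h1
      exact h1
    · rintro ⟨J, hJ, h⟩
      refine ⟨J, hJ, fun σ hσ => ?_⟩
      rw [key σ (G.mem_ker.1 (G.le_ker J hJ hσ))]
      exact h σ hσ
  let e : (twist q hq A).mker m ≃ₗ[K] A.mker m :=
    { toFun := fun v => ⟨v.1, (hmem v.1).1 v.2⟩
      map_add' := fun u v => rfl
      map_smul' := fun r v => rfl
      invFun := fun v => ⟨v.1, (hmem v.1).2 v.2⟩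
      left_inv := fun v => rfl
      right_inv := fun v => rfl }
  have h1 := trace_eq_of_equiv e ((twist q hq A).act m w) (q ^ G.d w • A.act m w)
    (fun v => rfl)
  unfold tr
  rw [h1, map_smul, smul_eq_mul]

theorem tr_zero (A : FRep K G) (w : G.W) : A.tr 0 w = 0 := by
  have h1 : ∀ v : A.mker 0, v = 0 := by
    rintro ⟨v, J, hJ, h⟩
    refine Subtype.ext ?_
    have h2 := h 1 J.one_mem
    rwa [pow_zero] at h2
  have h2 : A.act 0 w = 0 := LinearMap.ext fun v => by rw [h1 (A.act 0 w v)]; rfl
  unfold tr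
  rw [h2, map_zero]

end FRep

end Pool.Agent.R912.LI
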