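import Pool.Agent.R912.LI.Ops

set_option autoImplicit false
set_option linter.unusedSectionVars false
set_option linter.unusedVariables false

/-!
# Traces on permutation representations, and averaging over inertia
-/

open Module

namespace Pool.Agent.R912.LI

theorem WeilGroup.exists_common (G : WeilGroup) {ι : Type} (s : Finset ι) (J : ι → Subgroup G.W)
    (h : ∀ i ∈ s, J i ∈ G.inert) : ∃ J' ∈ G.inert, ∀ i ∈ s, J' ≤ J i := by
  classical
  induction s using Finset.induction_on with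
  | empty =>
    obtain ⟨J', hJ'⟩ := G.nonempty
    exact ⟨J', hJ', fun i hi => absurd hi (Finset.notMem_empty i)⟩
  | insert a s ha ih =>
    obtain ⟨J1, h1, h2⟩ := ih fun i hi => h i (Finset.mem_insert_of_mem hi)
    obtain ⟨J2, h3, h4, h5⟩ := G.directed J1 h1 (J a) (h a (Finset.mem_insert_self a s))
    refine ⟨J2, h3, fun i hi => ?_⟩
    rcases Finset.mem_insert.1 hi with rfl | hi
    · exact h5
    · exact h4.trans (h2 i hi)

section pi

variable {K M : Type} [Field K] [AddCommGroup M] [Module K M] [FiniteDimensional K M]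

/-- the trace of `f ↦ (x ↦ a (f (π x)))` -/
theorem trace_perm {ι : Type} [Finite ι] (π : ι → ι) (a : Module.End K M)
    (T : Module.End K (ι → M)) (hT : ∀ f x, T f x = a (f (π x))) :
    LinearMap.trace K _ T = (Nat.card {x // π x = x} : K) * LinearMap.trace K M a := by
  classical
  have : Fintype ι := Fintype.ofFinite ι
  have h1 : T = ∑ x : ι, (LinearMap.single K (fun _ : ι => M) x) ∘ₗ
      ((LinearMap.proj x : (ι → M) →ₗ[K] M) ∘ₗ T) := by
    refine LinearMap.ext fun f => funext fun y => ?_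
    rw [LinearMap.sum_apply, Finset.sum_apply, Finset.sum_eq_single y]
    · simp
    · intro x _ hx
      simp [hx.symm]
    · intro h; exact absurd (Finset.mem_univ y) h
  have h2 : ∀ x : ι, ((LinearMap.proj x : (ι → M) →ₗ[K] M) ∘ₗ T) ∘ₗ
      (LinearMap.single K (fun _ : ι => M) x) = if π x = x then a else 0 := by
    intro x
    refine LinearMap.ext fun v => ?_
    rw [LinearMap.comp_apply, LinearMap.comp_apply, LinearMap.proj_apply, hT,
      LinearMap.single_apply]
    by_cases h : π x = x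
    · rw [if_pos h, h, Pi.single_eq_same]
    · rw [if_neg h, Pi.single_eq_of_ne h, map_zero, LinearMap.zero_apply]
  rw [h1, map_sum]
  have h3 : ∀ x ∈ (Finset.univ : Finset ι), LinearMap.trace K (ι → M)
      ((LinearMap.single K (fun _ : ι => M) x) ∘ₗ ((LinearMap.proj x : (ι → M) →ₗ[K] M) ∘ₗ T)) =
      if π x = x then LinearMap.trace K M a else 0 := by
    intro x _
    rw [LinearMap.trace_comp_comm', h2]
    split_ifs
    · rfl
    · rw [map_zero]
  rw [Finset.sum_congr rfl h3, ← Finset.sum_filter, Finset.sum_const, nsmul_eq_mul]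
  congr 2
  rw [Nat.card_eq_fintype_card, Fintype.card_subtype]

end pi

namespace FRep

variable {K : Type} [Field K] {G : WeilGroup}

/-- a subgroup in `inert` inside `U` acts trivially on `W / U` -/
theorem smul_quot {U J0 : Subgroup G.W} (hJ0 : J0 ∈ G.inert) (hU : J0 ≤ U) {σ : G.W} (hσ : σ ∈ J0)
    (x : G.W ⧸ U) : σ • x = x := by
  induction x using QuotientGroup.induction_on with
  | H g =>
    rw [MulAction.Quotient.smul_coe, smul_eq_mul, QuotientGroup.eq]
    have h := (G.normal J0 hJ0).conj_mem σ⁻¹ (J0.inv_mem hσ) g⁻¹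
    rw [inv_inv] at h
    rw [mul_inv_rev]
    exact hU h

theorem perm_key {U J0 : Subgroup G.W} [Finite (G.W ⧸ U)] (hJ0 : J0 ∈ G.inert) (hU : J0 ≤ U)
    (A : FRep K G) {σ : G.W} (hσ : σ ∈ J0) (m : ℕ) (f : (perm U A).V) (x : G.W ⧸ U) :
    (((((perm U A).ρ σ - 1) ^ m) f : (perm U A).V) : G.W ⧸ U → A.V) x = ((A.ρ σ - 1) ^ m) (f x) := by
  induction m generalizing x with
  | zero => rfl
  | succ m ih =>
    rw [pow_succ', Module.End.mul_apply, pow_succ', Module.End.mul_apply, ← ih]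
    show A.ρ σ ((((perm U A).ρ σ - 1) ^ m) f (σ⁻¹ • x)) - (((perm U A).ρ σ - 1) ^ m) f x = _
    rw [smul_quot hJ0 hU (J0.inv_mem hσ)]
    rfl

theorem mem_mker_perm {U J0 : Subgroup G.W} [Finite (G.W ⧸ U)] (hJ0 : J0 ∈ G.inert) (hU : J0 ≤ U)
    (A : FRep K G) (m : ℕ) (f : (perm U A).V) :
    f ∈ (perm U A).mker m ↔ ∀ x, f x ∈ A.mker m := by
  classical
  constructor
  · rintro ⟨J, hJ, h⟩ x
    obtain ⟨J', hJ', h1, h2⟩ := G.directed J hJ J0 hJ0
    refine ⟨J', hJ', fun σ hσ => ?_⟩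
    rw [← perm_key hJ0 hU A (h2 hσ), h σ (h1 hσ)]
    rfl
  · intro h
    have : Fintype (G.W ⧸ U) := Fintype.ofFinite _
    choose J hJ h1 using h
    obtain ⟨J1, hJ1, h2⟩ := G.exists_common Finset.univ J fun i _ => hJ i
    obtain ⟨J', hJ', h3, h4⟩ := G.directed J1 hJ1 J0 hJ0
    refine ⟨J', hJ', fun σ hσ => funext fun x => ?_⟩
    refine (perm_key hJ0 hU A (h4 hσ) m f x).trans ?_
    exact h1 x σ (h2 x (Finset.mem_univ x) (h3 hσ))

theorem tr_perm {U J0 : Subgroup G.W} [Finite (G.W ⧸ U)] (hJ0 : J0 ∈ G.inert) (hU : J0 ≤ U)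
    (A : FRep K G) (m : ℕ) (w : G.W) :
    (perm U A).tr m w = (Nat.card {x : G.W ⧸ U // w⁻¹ • x = x} : K) * A.tr m w := by
  let e : (perm U A).mker m ≃ₗ[K] (G.W ⧸ U → A.mker m) :=
    { toFun := fun f x => ⟨f.1 x, (mem_mker_perm hJ0 hU A m f.1).1 f.2 x⟩
      map_add' := fun f g => rfl
      map_smul' := fun r f => rfl
      invFun := fun f => ⟨fun x => (f x).1, (mem_mker_perm hJ0 hU A m _).2 fun x => (f x).2⟩
      left_inv := fun f => rfl
      right_inv := fun f => rfl }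
  have h1 := trace_eq_of_equiv e ((perm U A).act m w) (e.conj ((perm U A).act m w))
    (fun v => by rw [LinearEquiv.conj_apply_apply, LinearEquiv.symm_apply_apply])
  unfold tr
  rw [h1]
  refine trace_perm (fun x => w⁻¹ • x) (A.act m w) _ fun f x => ?_
  rw [LinearEquiv.conj_apply_apply]
  rfl

/-! ### averaging -/

theorem exists_triv (A : FRep K G) : ∃ J ∈ G.inert, ∀ σ ∈ J, ∀ v ∈ A.mker 1, A.ρ σ v = v := by
  classical
  let b := Module.finBasis K (A.mker 1)
  have h : ∀ i, ∃ J ∈ G.inert, ∀ σ ∈ J, ((A.ρ σ - 1 : Module.End K A.V) ^ 1) (b i : A.V) = 0 :=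
    fun i => (b i).2
  choose J hJ h1 using h
  obtain ⟨J', hJ', h2⟩ := G.exists_common Finset.univ J fun i _ => hJ i
  refine ⟨J', hJ', fun σ hσ v hv => ?_⟩
  have h4 : (A.ρ σ) ∘ₗ (A.mker 1).subtype = (A.mker 1).subtype := by
    refine b.ext fun i => ?_
    have h5 := h1 i σ (h2 i (Finset.mem_univ i) hσ)
    rw [pow_one, LinearMap.sub_apply, Module.End.one_apply] at h5
    exact sub_eq_zero.1 h5
  exact LinearMap.congr_fun h4 ⟨v, hv⟩

theorem inv_le_mker (A : FRep K G) : A.inv ≤ A.mker 1 := by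
  intro v hv
  obtain ⟨J, hJ⟩ := G.nonempty
  refine ⟨J, hJ, fun σ hσ => ?_⟩
  rw [pow_one, LinearMap.sub_apply, Module.End.one_apply, hv σ (G.mem_ker.1 (G.le_ker J hJ hσ)),
    sub_self]

/-- The trace on the invariants of inertia is an average of traces on `mker 1`. -/
theorem averaging (A : FRep K G) {J : Subgroup G.W}
    (hJ : J ∈ G.inert) (ht : ∀ σ ∈ J, ∀ v ∈ A.mker 1, A.ρ σ v = v)
    [Fintype (G.deg.ker ⧸ J.subgroupOf G.deg.ker)] (g : G.W) :
    (Fintype.card (G.deg.ker ⧸ J.subgroupOf G.deg.ker) : K) * A.itr g =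
      ∑ x : G.deg.ker ⧸ J.subgroupOf G.deg.ker, A.tr 1 (g * (x.out : G.W)) := by
  have hd : ∀ y : G.deg.ker, G.d (y : G.W) = 0 := fun y => G.mem_ker.1 y.2
  -- the sum over the cosets
  have hinv : ∀ v : A.mker 1, (∑ x : G.deg.ker ⧸ J.subgroupOf G.deg.ker,
      A.ρ (x.out : G.W) (v : A.V)) ∈ A.inv := by
    intro v σ hσ
    rw [map_sum]
    let σ' : G.deg.ker := ⟨σ, G.mem_ker.2 hσ⟩
    have h1 : ∀ x : G.deg.ker ⧸ J.subgroupOf G.deg.ker,
        A.ρ σ (A.ρ (x.out : G.W) (v : A.V)) = A.ρ ((σ' • x).out : G.W) (v : A.V) := by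
      intro x
      obtain ⟨h, hh⟩ := QuotientGroup.mk_out_eq_mul (J.subgroupOf G.deg.ker) (σ' * x.out)
      have h2 : ((σ' * x.out : G.deg.ker) : G.deg.ker ⧸ J.subgroupOf G.deg.ker) = σ' • x := by
        rw [← smul_eq_mul, ← MulAction.Quotient.smul_coe, QuotientGroup.out_eq']
      rw [h2] at hh
      rw [hh]
      have h3 : ((h : G.deg.ker) : G.W) ∈ J := h.2
      rw [Subgroup.coe_mul, Subgroup.coe_mul, map_mul, map_mul, Module.End.mul_apply,
        Module.End.mul_apply, ht _ h3 _ v.2]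
    rw [Finset.sum_congr rfl fun x _ => h1 x]
    exact Equiv.sum_comp (MulAction.toPerm σ')
      fun x : G.deg.ker ⧸ J.subgroupOf G.deg.ker => A.ρ (x.out : G.W) (v : A.V)
  let E : A.mker 1 →ₗ[K] A.inv :=
    { toFun := fun v => ⟨_, hinv v⟩
      map_add' := fun u v => by
        refine Subtype.ext ?_
        show (∑ x : G.deg.ker ⧸ J.subgroupOf G.deg.ker, A.ρ (x.out : G.W) ((u : A.V) + v)) =
          (∑ x : G.deg.ker ⧸ J.subgroupOf G.deg.ker, A.ρ (x.out : G.W) (u : A.V)) +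
          ∑ x : G.deg.ker ⧸ J.subgroupOf G.deg.ker, A.ρ (x.out : G.W) (v : A.V)
        rw [← Finset.sum_add_distrib]
        exact Finset.sum_congr rfl fun x _ => map_add _ _ _
      map_smul' := fun r v => by
        refine Subtype.ext ?_
        show (∑ x : G.deg.ker ⧸ J.subgroupOf G.deg.ker, A.ρ (x.out : G.W) (r • (v : A.V))) =
          r • ∑ x : G.deg.ker ⧸ J.subgroupOf G.deg.ker, A.ρ (x.out : G.W) (v : A.V)
        rw [Finset.smul_sum]
        exact Finset.sum_congr rfl fun x _ => map_smul _ _ _ }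
  have hE : ∀ v, (E v : A.V) = ∑ x : G.deg.ker ⧸ J.subgroupOf G.deg.ker,
      A.ρ (x.out : G.W) (v : A.V) := fun v => rfl
  let ι : A.inv →ₗ[K] A.mker 1 := Submodule.inclusion A.inv_le_mker
  have h1 : (A.act 1 g ∘ₗ ι) ∘ₗ E = ∑ x : G.deg.ker ⧸ J.subgroupOf G.deg.ker,
      A.act 1 (g * (x.out : G.W)) := by
    refine LinearMap.ext fun v => Subtype.ext ?_
    rw [LinearMap.sum_apply]
    show A.ρ g (E v : A.V) = _
    rw [hE, map_sum, AddSubmonoidClass.coe_finsetSum]
    refine Finset.sum_congr rfl fun x _ => ?_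
    rw [act_coe, map_mul, Module.End.mul_apply]
  have h2 : E ∘ₗ (A.act 1 g ∘ₗ ι) = (Fintype.card (G.deg.ker ⧸ J.subgroupOf G.deg.ker) : K) •
      A.invAct g := by
    refine LinearMap.ext fun v => Subtype.ext ?_
    rw [LinearMap.comp_apply, hE]
    show (∑ x : G.deg.ker ⧸ J.subgroupOf G.deg.ker, A.ρ (x.out : G.W) (A.ρ g (v : A.V))) =
      (Fintype.card (G.deg.ker ⧸ J.subgroupOf G.deg.ker) : K) • A.ρ g (v : A.V)
    have h3 : ∀ x ∈ (Finset.univ : Finset (G.deg.ker ⧸ J.subgroupOf G.deg.ker)),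
        A.ρ (x.out : G.W) (A.ρ g (v : A.V)) = A.ρ g (v : A.V) :=
      fun x _ => A.inv_stable g v.1 v.2 _ (hd _)
    rw [Finset.sum_congr rfl h3, Finset.sum_const, Finset.card_univ, Nat.cast_smul_eq_nsmul]
  have h3 : LinearMap.trace K _ ((A.act 1 g ∘ₗ ι) ∘ₗ E) =
      LinearMap.trace K _ (E ∘ₗ (A.act 1 g ∘ₗ ι)) := LinearMap.trace_comp_comm' _ _
  rw [h1, h2, map_sum, map_smul, smul_eq_mul] at h3
  exact h3.symm

/-- the trace is a class function -/
theorem tr_conj (A : FRep K G) (m : ℕ) (g w : G.W) : A.tr m (g * w * g⁻¹) = A.tr m w := by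
  have hmul : ∀ x y : G.W, A.act m (x * y) = A.act m x * A.act m y := by
    intro x y
    refine LinearMap.ext fun v => Subtype.ext ?_
    rw [Module.End.mul_apply, act_coe, act_coe, act_coe, map_mul, Module.End.mul_apply]
  have h1 : A.act m 1 = 1 := by
    refine LinearMap.ext fun v => Subtype.ext ?_
    rw [act_coe, map_one]; rfl
  unfold tr
  rw [hmul, LinearMap.trace_mul_comm, ← hmul]
  congr 2
  group

end FRep

end Pool.Agent.R912.LI
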