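import Pool.Agent.R912.LI.Tens
import Pool.Agent.R912.LI.Mono
import Pool.Agent.TH658.Eq.Newt

set_option autoImplicit false
set_option linter.unusedSectionVars false
set_option linter.unusedVariables false

/-!
# Families of `ℓ`-adic numbers which are one rational number
-/

open Module Polynomial

namespace Pool.Agent.R912.LI

/-- a prime `ℓ ≠ p` -/
structure Ell (p : ℕ) where
  val : ℕ
  prime : val.Prime
  ne : val ≠ p

instance instFactEll {p : ℕ} (ℓ : Ell p) : Fact ℓ.val.Prime := ⟨ℓ.prime⟩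

/-- the field `ℚ_ℓ` -/
abbrev Ell.Q {p : ℕ} (ℓ : Ell p) : Type := ℚ_[ℓ.val]

/-- the elements `x ℓ` of the fields `ℚ_ℓ` are one rational number, independent of `ℓ` -/
def IsRat {p : ℕ} (x : (ℓ : Ell p) → ℓ.Q) : Prop := ∃ r : ℚ, ∀ ℓ : Ell p, x ℓ = (r : ℓ.Q)

section rat

variable {p : ℕ}

theorem Ell.exists_ell (p : ℕ) : Nonempty (Ell p) := by
  by_cases h : (2 : ℕ) = p
  · exact ⟨⟨3, Nat.prime_three, by omega⟩⟩
  · exact ⟨⟨2, Nat.prime_two, h⟩⟩

theorem isRat_const (r : ℚ) : IsRat (p := p) fun ℓ => (r : ℓ.Q) := ⟨r, fun _ => rfl⟩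

theorem IsRat.add {x y : (ℓ : Ell p) → ℓ.Q} (hx : IsRat x) (hy : IsRat y) :
    IsRat fun ℓ => x ℓ + y ℓ := by
  obtain ⟨r, hr⟩ := hx
  obtain ⟨s, hs⟩ := hy
  exact ⟨r + s, fun ℓ => by beta_reduce; rw [hr, hs, Rat.cast_add]⟩

theorem IsRat.neg {x : (ℓ : Ell p) → ℓ.Q} (hx : IsRat x) : IsRat fun ℓ => - x ℓ := by
  obtain ⟨r, hr⟩ := hx
  exact ⟨-r, fun ℓ => by beta_reduce; rw [hr, Rat.cast_neg]⟩

theorem IsRat.sub {x y : (ℓ : Ell p) → ℓ.Q} (hx : IsRat x) (hy : IsRat y) :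
    IsRat fun ℓ => x ℓ - y ℓ := by
  obtain ⟨r, hr⟩ := hx
  obtain ⟨s, hs⟩ := hy
  exact ⟨r - s, fun ℓ => by beta_reduce; rw [hr, hs, Rat.cast_sub]⟩

theorem IsRat.mul {x y : (ℓ : Ell p) → ℓ.Q} (hx : IsRat x) (hy : IsRat y) :
    IsRat fun ℓ => x ℓ * y ℓ := by
  obtain ⟨r, hr⟩ := hx
  obtain ⟨s, hs⟩ := hy
  exact ⟨r * s, fun ℓ => by beta_reduce; rw [hr, hs, Rat.cast_mul]⟩

theorem IsRat.sum {ι : Type} (s : Finset ι) {x : ι → (ℓ : Ell p) → ℓ.Q}
    (hx : ∀ i ∈ s, IsRat (x i)) : IsRat fun ℓ => ∑ i ∈ s, x i ℓ := by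
  classical
  induction s using Finset.induction_on with
  | empty => exact ⟨0, fun ℓ => by beta_reduce; rw [Finset.sum_empty, Rat.cast_zero]⟩
  | insert a s ha ih =>
    have h := (hx a (Finset.mem_insert_self a s)).add
      (ih fun i hi => hx i (Finset.mem_insert_of_mem hi))
    refine (show IsRat _ = IsRat _ from congrArg IsRat (funext fun ℓ => ?_)).mp h
    rw [Finset.sum_insert ha]

theorem IsRat.congr {x y : (ℓ : Ell p) → ℓ.Q} (hx : IsRat x) (h : ∀ ℓ, y ℓ = x ℓ) : IsRat y := by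
  obtain ⟨r, hr⟩ := hx
  exact ⟨r, fun ℓ => by rw [h, hr]⟩

theorem IsRat.cancel {c : ℚ} (hc : c ≠ 0) {x : (ℓ : Ell p) → ℓ.Q}
    (h : IsRat fun ℓ => (c : ℓ.Q) * x ℓ) : IsRat x := by
  obtain ⟨r, hr⟩ := h
  refine ⟨r / c, fun ℓ => ?_⟩
  have h1 : (c : ℓ.Q) ≠ 0 := Rat.cast_ne_zero.2 hc
  rw [Rat.cast_div, eq_div_iff h1, mul_comm]
  exact hr ℓ

theorem IsRat.of_pairs {x : (ℓ : Ell p) → ℓ.Q}
    (h : ∀ ℓ ℓ' : Ell p, ∃ r : ℚ, x ℓ = (r : ℓ.Q) ∧ x ℓ' = (r : ℓ'.Q)) : IsRat x := by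
  obtain ⟨ℓ₀⟩ := Ell.exists_ell p
  obtain ⟨r, hr, -⟩ := h ℓ₀ ℓ₀
  refine ⟨r, fun ℓ => ?_⟩
  obtain ⟨s, h1, h2⟩ := h ℓ₀ ℓ
  have h3 : r = s := Rat.cast_injective (hr.symm.trans h1)
  rw [h3, h2]

end rat

/-! ### Newton's identities -/

section newton

theorem newton_end {K V : Type} [Field K] [AddCommGroup V] [Module K V] [FiniteDimensional K V]
    (f : Module.End K V) (k : ℕ) :
    (f.charpoly.reverse.coeff (k + 1)) * ((k : K) + 1) =
      - ∑ q ∈ Finset.HasAntidiagonal.antidiagonal k,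
        f.charpoly.reverse.coeff q.1 * LinearMap.trace K V (f ^ (q.2 + 1)) := by
  classical
  let b := Module.finBasis K V
  have h := Pool.Agent.TH658.Eq.newton (LinearMap.toMatrix b b f) k
  rw [← Matrix.reverse_charpoly, LinearMap.charpoly_toMatrix] at h
  rw [h]
  congr 1
  refine Finset.sum_congr rfl fun q _ => ?_
  rw [LinearMap.toMatrix_pow, ← LinearMap.trace_eq_matrix_trace]

variable {p : ℕ} {V : Ell p → Type} [∀ ℓ, AddCommGroup (V ℓ)] [∀ ℓ, Module ℓ.Q (V ℓ)]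
  [∀ ℓ, FiniteDimensional ℓ.Q (V ℓ)]

theorem coeff_zero_rev {K V : Type} [Field K] [AddCommGroup V] [Module K V] [FiniteDimensional K V]
    (f : Module.End K V) : f.charpoly.reverse.coeff 0 = 1 := by
  rw [coeff_zero_reverse]
  exact LinearMap.charpoly_monic f

theorem poly_of_traces (f : (ℓ : Ell p) → Module.End ℓ.Q (V ℓ))
    (h : ∀ k : ℕ, IsRat fun ℓ => LinearMap.trace ℓ.Q (V ℓ) (f ℓ ^ (k + 1))) (k : ℕ) :
    IsRat fun ℓ => (f ℓ).charpoly.reverse.coeff k := by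
  induction k using Nat.strong_induction_on with
  | _ k ih =>
    rcases k with _ | k
    · exact (isRat_const 1).congr fun ℓ => by rw [coeff_zero_rev, Rat.cast_one]
    · have h1 : IsRat fun ℓ : Ell p => -∑ q ∈ Finset.HasAntidiagonal.antidiagonal k,
          (f ℓ).charpoly.reverse.coeff q.1 * LinearMap.trace ℓ.Q (V ℓ) (f ℓ ^ (q.2 + 1)) := by
        refine IsRat.neg (IsRat.sum _ fun q hq => ?_)
        have h3 := (Finset.HasAntidiagonal.mem_antidiagonal.mp hq)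
        exact (ih q.1 (by omega)).mul (h q.2)
      refine IsRat.cancel (c := (k : ℚ) + 1) (by positivity) (h1.congr fun ℓ => ?_)
      rw [← newton_end, mul_comm]
      push_cast
      ring

theorem traces_of_poly (f : (ℓ : Ell p) → Module.End ℓ.Q (V ℓ))
    (h : ∀ k : ℕ, IsRat fun ℓ => (f ℓ).charpoly.reverse.coeff k) (k : ℕ) :
    IsRat fun ℓ => LinearMap.trace ℓ.Q (V ℓ) (f ℓ ^ (k + 1)) := by
  classical
  induction k using Nat.strong_induction_on with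
  | _ k ih =>
    -- the term with `q = (0, k)` is the trace
    have h1 : ∀ ℓ : Ell p, LinearMap.trace ℓ.Q (V ℓ) (f ℓ ^ (k + 1)) =
        -((f ℓ).charpoly.reverse.coeff (k + 1) * ((k : ℓ.Q) + 1)) -
          ∑ q ∈ (Finset.HasAntidiagonal.antidiagonal k).erase (0, k),
            (f ℓ).charpoly.reverse.coeff q.1 * LinearMap.trace ℓ.Q (V ℓ) (f ℓ ^ (q.2 + 1)) := by
      intro ℓ
      have h2 := newton_end (f ℓ) k
      have h3 : ((0, k) : ℕ × ℕ) ∈ Finset.HasAntidiagonal.antidiagonal k := by simp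
      rw [← Finset.add_sum_erase _ _ h3] at h2
      simp only at h2
      rw [coeff_zero_rev, one_mul] at h2
      rw [h2]
      ring
    have h4 : IsRat fun ℓ : Ell p => -((f ℓ).charpoly.reverse.coeff (k + 1) * ((k : ℓ.Q) + 1)) -
          ∑ q ∈ (Finset.HasAntidiagonal.antidiagonal k).erase (0, k),
            (f ℓ).charpoly.reverse.coeff q.1 * LinearMap.trace ℓ.Q (V ℓ) (f ℓ ^ (q.2 + 1)) := by
      refine IsRat.sub (IsRat.neg ((h (k + 1)).mul
        ((isRat_const ((k : ℚ) + 1)).congr fun ℓ => by push_cast; ring))) (IsRat.sum _ fun q hq => ?_)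
      obtain ⟨h5, h6⟩ := Finset.mem_erase.1 hq
      have h7 := (Finset.HasAntidiagonal.mem_antidiagonal.mp h6)
      have h8 : q.2 < k := by
        rcases Nat.lt_or_ge q.2 k with h9 | h9
        · exact h9
        · exfalso
          apply h5
          refine Prod.ext ?_ ?_ <;> simp only <;> omega
      exact (h q.1).mul (ih q.2 h8)
    exact h4.congr h1

/-- Cayley–Hamilton: a linear recurrence with rational coefficients, independent of `ℓ`. -/
theorem recurrence (f : (ℓ : Ell p) → Module.End ℓ.Q (V ℓ)) (hf : ∀ ℓ, IsUnit (f ℓ))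
    (h : ∀ k : ℕ, IsRat fun ℓ => LinearMap.trace ℓ.Q (V ℓ) (f ℓ ^ (k + 1))) :
    ∃ (n : ℕ) (γ : ℕ → ℚ), γ 0 ≠ 0 ∧ ∀ (ℓ : Ell p) (g : Module.End ℓ.Q (V ℓ)),
      (γ 0 : ℓ.Q) * LinearMap.trace ℓ.Q (V ℓ) g =
        - ∑ i ∈ Finset.range n, (γ (i + 1) : ℓ.Q) * LinearMap.trace ℓ.Q (V ℓ) (g * f ℓ ^ (i + 1)) := by
  have h1 := fun k => poly_of_traces f h k
  choose β hβ' using h1
  have hβ : ∀ (k : ℕ) (ℓ : Ell p), (f ℓ).charpoly.reverse.coeff k = (β k : ℓ.Q) := hβ'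
  -- the constant coefficient is not zero
  have h0 : ∀ ℓ, (f ℓ).charpoly.coeff 0 ≠ 0 := by
    intro ℓ hz
    have h2 := LinearMap.det_eq_sign_charpoly_coeff (f ℓ)
    rw [hz, mul_zero] at h2
    exact ((LinearMap.isUnit_det (f ℓ) (hf ℓ)).ne_zero) h2
  have hrev : ∀ ℓ, ∀ i ≤ (f ℓ).charpoly.natDegree,
      (f ℓ).charpoly.reverse.coeff ((f ℓ).charpoly.natDegree - i) = (f ℓ).charpoly.coeff i := by
    intro ℓ i hi
    rw [coeff_reverse, revAt_le (Nat.sub_le _ _), Nat.sub_sub_self hi]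
  have hle : ∀ ℓ ℓ' : Ell p, (f ℓ).charpoly.natDegree ≤ (f ℓ').charpoly.natDegree := by
    intro ℓ ℓ'
    have h2 := hrev ℓ 0 (Nat.zero_le _)
    rw [Nat.sub_zero, hβ] at h2
    have h3 : β (f ℓ).charpoly.natDegree ≠ 0 := by
      intro h4
      rw [h4, Rat.cast_zero] at h2
      exact h0 ℓ h2.symm
    have h4 : (f ℓ').charpoly.reverse.coeff (f ℓ).charpoly.natDegree ≠ 0 := by
      rw [hβ]
      exact Rat.cast_ne_zero.2 h3
    exact (le_natDegree_of_ne_zero h4).trans (by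
      rw [reverse_natDegree]; exact Nat.sub_le _ _)
  obtain ⟨ℓ₀⟩ := Ell.exists_ell p
  set n := (f ℓ₀).charpoly.natDegree with hn
  have hdeg : ∀ ℓ, (f ℓ).charpoly.natDegree = n := fun ℓ => le_antisymm (hle ℓ ℓ₀) (hle ℓ₀ ℓ)
  have hγ : ∀ ℓ : Ell p, ∀ i ≤ n, (f ℓ).charpoly.coeff i = (β (n - i) : ℓ.Q) := by
    intro ℓ i hi
    rw [← hrev ℓ i (by rw [hdeg]; exact hi), hdeg, hβ]
  refine ⟨n, fun i => β (n - i), ?_, fun ℓ g => ?_⟩
  · intro h2
    have h3 := hγ ℓ₀ 0 (Nat.zero_le n)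
    beta_reduce at h2
    rw [h2, Rat.cast_zero] at h3
    exact h0 ℓ₀ h3
  · have h2 := LinearMap.aeval_self_charpoly (f ℓ)
    rw [aeval_eq_sum_range, hdeg] at h2
    have h3 := congrArg (fun y => LinearMap.trace ℓ.Q (V ℓ) (g * y)) h2
    beta_reduce at h3
    rw [mul_zero, map_zero, Finset.mul_sum, map_sum, Finset.sum_range_succ'] at h3
    have h4 : ∀ i ∈ Finset.range n, LinearMap.trace ℓ.Q (V ℓ)
        (g * ((f ℓ).charpoly.coeff (i + 1) • f ℓ ^ (i + 1))) =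
        (β (n - (i + 1)) : ℓ.Q) * LinearMap.trace ℓ.Q (V ℓ) (g * f ℓ ^ (i + 1)) := by
      intro i hi
      have hi' := Finset.mem_range.1 hi
      rw [mul_smul_comm, map_smul, smul_eq_mul, hγ ℓ (i + 1) (by omega)]
    rw [Finset.sum_congr rfl h4, pow_zero, mul_smul_comm, mul_one, map_smul, smul_eq_mul,
      hγ ℓ 0 (Nat.zero_le n)] at h3
    linear_combination h3

end newton

end Pool.Agent.R912.LI
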