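import Pool.Agent.R912.LI.Core

set_option autoImplicit false
set_option linter.unusedSectionVars false
set_option linter.unusedVariables false

/-!
# Local Euler factors
-/

open Module Polynomial

namespace Pool.Agent.R912.LI

theorem cast_ne {p : ℕ} (hp : p.Prime) (ℓ : Ell p) : (p : ℓ.Q) ≠ 0 := Nat.cast_ne_zero.2 hp.ne_zero

namespace FRep

variable {K : Type} [Field K] {G : WeilGroup}

/-- `det (1 - F T | A ^ I)`, the reversed characteristic polynomial of the geometric Frobenius on the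
invariants of inertia -/
noncomputable def eul (A : FRep K G) : K[X] := (A.invAct G.frob).charpoly.reverse

end FRep

open FRep

section

variable {p : ℕ} {G : WeilGroup} (A : (ℓ : Ell p) → FRep ℓ.Q G)

/-- all the coefficients of the Euler factors are rational numbers independent of `ℓ` -/
def EulRat : Prop := ∀ k, IsRat fun ℓ => (A ℓ).eul.coeff k

theorem itr_of_eul (h : EulRat A) (k : ℕ) : IsRat fun ℓ => (A ℓ).itr (G.frob ^ (k + 1)) := by
  refine (traces_of_poly (fun ℓ => (A ℓ).invAct G.frob) h k).congr fun ℓ => ?_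
  rw [invAct_pow]
  rfl

theorem eul_of_itr (h : ∀ k : ℕ, IsRat fun ℓ => (A ℓ).itr (G.frob ^ (k + 1))) : EulRat A := by
  refine poly_of_traces (fun ℓ => (A ℓ).invAct G.frob) fun k => (h k).congr fun ℓ => ?_
  rw [invAct_pow]
  rfl

theorem eul_of_tr_one (h : ∀ w, IsRat fun ℓ => (A ℓ).tr 1 w) : EulRat A :=
  eul_of_itr A fun k => itr_of_tr_one A (fun w _ => h w) _ (by
    rw [G.d_pow, G.d_frob]; push_cast; omega)

theorem eulRat_of_poly {R : Type} [CommRing R] (φ : R →+* ℚ) (P : R[X])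
    (h : ∀ ℓ, (A ℓ).eul = P.map ((Rat.castHom ℓ.Q).comp φ)) : EulRat A :=
  fun k => ⟨φ (P.coeff k), fun ℓ => by
    beta_reduce
    rw [h, coeff_map]
    rfl⟩

/-- a polynomial with the given coefficients -/
theorem poly_of_eulRat (h : EulRat A) :
    ∃ P : ℚ[X], ∀ ℓ, (A ℓ).eul = P.map (Rat.castHom ℓ.Q) := by
  obtain ⟨ℓ₀⟩ := Ell.exists_ell p
  choose β hβ using h
  refine ⟨∑ k ∈ Finset.range ((A ℓ₀).eul.natDegree + 1), monomial k (β k), fun ℓ => ?_⟩
  refine Polynomial.ext fun k => ?_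
  have h1 : (A ℓ).eul.coeff k = (β k : ℓ.Q) := hβ k ℓ
  rw [h1, coeff_map, finset_sum_coeff]
  simp only [coeff_monomial]
  rw [Finset.sum_ite_eq']
  split_ifs with h2
  · rfl
  · have h3 : (A ℓ₀).eul.natDegree < k := by
      rw [Finset.mem_range] at h2; omega
    have h4 : (A ℓ₀).eul.coeff k = (β k : ℓ₀.Q) := hβ k ℓ₀
    rw [coeff_eq_zero_of_natDegree_lt h3] at h4
    have h5 : β k = 0 := by
      have h6 : (β k : ℓ₀.Q) = 0 := h4.symm
      exact Rat.cast_eq_zero.1 h6
    rw [h5, Rat.cast_zero, map_zero]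

/-- the same with integral coefficients -/
theorem intPoly_of_eulRat (hint : ∀ ℓ k, IsIntegral ℤ ((A ℓ).eul.coeff k)) (h : EulRat A) :
    ∃ P : ℤ[X], ∀ ℓ, (A ℓ).eul = P.map (Int.castRingHom ℓ.Q) := by
  obtain ⟨P, hP⟩ := poly_of_eulRat A h
  obtain ⟨ℓ₀⟩ := Ell.exists_ell p
  have h1 : ∀ k, ∃ z : ℤ, (z : ℚ) = P.coeff k := by
    intro k
    have h2 := hint ℓ₀ k
    rw [hP ℓ₀, coeff_map] at h2
    have h3 : IsIntegral ℤ (P.coeff k) := by
      have h4 : Function.Injective (algebraMap ℚ ℓ₀.Q) := (algebraMap ℚ ℓ₀.Q).injective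
      rw [← isIntegral_algebraMap_iff (B := ℓ₀.Q) h4]
      exact h2
    obtain ⟨z, hz⟩ := IsIntegrallyClosed.isIntegral_iff.1 h3
    exact ⟨z, hz⟩
  choose z hz using h1
  refine ⟨∑ k ∈ Finset.range (P.natDegree + 1), monomial k (z k), fun ℓ => ?_⟩
  refine Polynomial.ext fun k => ?_
  rw [hP ℓ, coeff_map, coeff_map, finset_sum_coeff]
  simp only [coeff_monomial]
  rw [Finset.sum_ite_eq']
  split_ifs with h2
  · rw [← hz k]
    simp
  · have h3 : P.natDegree < k := by
      rw [Finset.mem_range] at h2; omega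
    rw [coeff_eq_zero_of_natDegree_lt h3]
    simp

end

end Pool.Agent.R912.LI
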