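import Pool.Agent.R912.LI.Perm

set_option autoImplicit false
set_option linter.unusedSectionVars false
set_option linter.unusedVariables false

/-!
# Tensor products with unramified representations
-/

open Module

namespace Pool.Agent.R912.LI

section mat

variable {K M : Type} [Field K] [AddCommGroup M] [Module K M] [FiniteDimensional K M]

theorem trace_mat {ι : Type} [Fintype ι] (C : Matrix ι ι K) (a : Module.End K M)
    (T : Module.End K (ι → M)) (hT : ∀ f x, T f x = ∑ y, C x y • a (f y)) :
    LinearMap.trace K _ T = C.trace * LinearMap.trace K M a := by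
  classical
  have h1 : T = ∑ x : ι, (LinearMap.single K (fun _ : ι => M) x) ∘ₗ
      ((LinearMap.proj x : (ι → M) →ₗ[K] M) ∘ₗ T) := by
    refine LinearMap.ext fun f => funext fun y => ?_
    rw [LinearMap.sum_apply, Finset.sum_apply, Finset.sum_eq_single y]
    · simp
    · intro x _ hx
      simp [hx.symm]
    · intro h; exact absurd (Finset.mem_univ y) h
  have h2 : ∀ x : ι, ((LinearMap.proj x : (ι → M) →ₗ[K] M) ∘ₗ T) ∘ₗ
      (LinearMap.single K (fun _ : ι => M) x) = C x x • a := by
    intro x
    refine LinearMap.ext fun v => ?_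
    rw [LinearMap.comp_apply, LinearMap.comp_apply, LinearMap.proj_apply, hT,
      LinearMap.single_apply, Finset.sum_eq_single x]
    · rw [Pi.single_eq_same, LinearMap.smul_apply]
    · intro y _ hy
      rw [Pi.single_eq_of_ne hy, map_zero, smul_zero]
    · intro h; exact absurd (Finset.mem_univ x) h
  rw [h1, map_sum, Matrix.trace, Finset.sum_mul]
  refine Finset.sum_congr rfl fun x _ => ?_
  rw [LinearMap.trace_comp_comm', h2, map_smul, smul_eq_mul, Matrix.diag_apply]

end mat

namespace FRep

variable {K : Type} [Field K] {G : WeilGroup}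

/-- The tensor product with the representation given by the matrices `C w`. -/
def tens {ι : Type} [Fintype ι] [DecidableEq ι] (C : G.W →* Matrix ι ι K) (A : FRep K G) :
    FRep K G where
  V := ι → A.V
  ρ := { toFun := fun w =>
          { toFun := fun f x => ∑ y, C w x y • A.ρ w (f y)
            map_add' := fun f g => by
              refine funext fun x => ?_
              show ∑ y, C w x y • A.ρ w (f y + g y) =
                (∑ y, C w x y • A.ρ w (f y)) + ∑ y, C w x y • A.ρ w (g y)
              rw [← Finset.sum_add_distrib]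
              exact Finset.sum_congr rfl fun y _ => by rw [map_add, smul_add]
            map_smul' := fun r f => by
              refine funext fun x => ?_
              show ∑ y, C w x y • A.ρ w (r • f y) = r • ∑ y, C w x y • A.ρ w (f y)
              rw [Finset.smul_sum]
              exact Finset.sum_congr rfl fun y _ => by rw [map_smul, smul_comm] }
         map_one' := by
          refine LinearMap.ext fun f => funext fun x => ?_
          show ∑ y, C 1 x y • A.ρ 1 (f y) = f x
          rw [map_one, map_one, Finset.sum_eq_single x]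
          · rw [Matrix.one_apply_eq, one_smul]; rfl
          · intro y _ hy
            rw [Matrix.one_apply_ne hy.symm, zero_smul]
          · intro h; exact absurd (Finset.mem_univ x) h
         map_mul' := fun w w' => by
          refine LinearMap.ext fun f => funext fun x => ?_
          show ∑ y, C (w * w') x y • A.ρ (w * w') (f y) =
            ∑ z, C w x z • A.ρ w (∑ y, C w' z y • A.ρ w' (f y))
          have h1 : ∀ z ∈ (Finset.univ : Finset ι),
              C w x z • A.ρ w (∑ y, C w' z y • A.ρ w' (f y)) =
              ∑ y, (C w x z * C w' z y) • A.ρ w (A.ρ w' (f y)) := by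
            intro z _
            rw [map_sum, Finset.smul_sum]
            exact Finset.sum_congr rfl fun y _ => by rw [map_smul, smul_smul]
          rw [Finset.sum_congr rfl h1, Finset.sum_comm]
          refine Finset.sum_congr rfl fun y _ => ?_
          rw [← Finset.sum_smul, map_mul, map_mul, Matrix.mul_apply]
          rfl }

theorem tens_key {ι : Type} [Fintype ι] [DecidableEq ι] (C : G.W →* Matrix ι ι K) (A : FRep K G)
    {σ : G.W} (hσ : C σ = 1) (m : ℕ) (f : (tens C A).V) (x : ι) :
    (((((tens C A).ρ σ - 1) ^ m) f : (tens C A).V) : ι → A.V) x = ((A.ρ σ - 1) ^ m) (f x) := by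
  induction m generalizing x with
  | zero => rfl
  | succ m ih =>
    rw [pow_succ', Module.End.mul_apply, pow_succ', Module.End.mul_apply, ← ih]
    show (∑ y, C σ x y • A.ρ σ ((((tens C A).ρ σ - 1) ^ m) f y)) -
      (((tens C A).ρ σ - 1) ^ m) f x = _
    rw [hσ, Finset.sum_eq_single x]
    · rw [Matrix.one_apply_eq, one_smul]
      rfl
    · intro y _ hy
      rw [Matrix.one_apply_ne hy.symm, zero_smul]
    · intro h; exact absurd (Finset.mem_univ x) h

theorem mem_mker_tens {ι : Type} [Fintype ι] [DecidableEq ι] (C : G.W →* Matrix ι ι K)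
    (hC : ∀ σ, G.d σ = 0 → C σ = 1) (A : FRep K G) (m : ℕ) (f : (tens C A).V) :
    f ∈ (tens C A).mker m ↔ ∀ x, f x ∈ A.mker m := by
  classical
  constructor
  · rintro ⟨J, hJ, h⟩ x
    refine ⟨J, hJ, fun σ hσ => ?_⟩
    rw [← tens_key C A (hC σ (G.mem_ker.1 (G.le_ker J hJ hσ))), h σ hσ]
    rfl
  · intro h
    choose J hJ h1 using h
    obtain ⟨J1, hJ1, h2⟩ := G.exists_common Finset.univ J fun i _ => hJ i
    refine ⟨J1, hJ1, fun σ hσ => funext fun x => ?_⟩
    refine (tens_key C A (hC σ (G.mem_ker.1 (G.le_ker J1 hJ1 hσ))) m f x).trans ?_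
    exact h1 x σ (h2 x (Finset.mem_univ x) hσ)

theorem tr_tens {ι : Type} [Fintype ι] [DecidableEq ι] (C : G.W →* Matrix ι ι K)
    (hC : ∀ σ, G.d σ = 0 → C σ = 1) (A : FRep K G) (m : ℕ) (w : G.W) :
    (tens C A).tr m w = (C w).trace * A.tr m w := by
  let e : (tens C A).mker m ≃ₗ[K] (ι → A.mker m) :=
    { toFun := fun f x => ⟨f.1 x, (mem_mker_tens C hC A m f.1).1 f.2 x⟩
      map_add' := fun f g => rfl
      map_smul' := fun r f => rfl
      invFun := fun f => ⟨fun x => (f x).1, (mem_mker_tens C hC A m _).2 fun x => (f x).2⟩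
      left_inv := fun f => rfl
      right_inv := fun f => rfl }
  have h1 := trace_eq_of_equiv e ((tens C A).act m w) (e.conj ((tens C A).act m w))
    (fun v => by rw [LinearEquiv.conj_apply_apply, LinearEquiv.symm_apply_apply])
  unfold tr
  rw [h1]
  refine trace_mat (C w) (A.act m w) _ fun f x => ?_
  rw [LinearEquiv.conj_apply_apply]
  refine Subtype.ext ?_
  rw [AddSubmonoidClass.coe_finsetSum]
  rfl

end FRep

/-! ### the matrices of the ordinary elliptic curve -/

/-- the companion matrix of `T ^ 2 - a T + q` -/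
def comp2 {R : Type} [CommRing R] (q a : R) : Matrix (Fin 2) (Fin 2) R := !![0, -q; 1, a]

theorem comp2_det {R : Type} [CommRing R] (q a : R) : (comp2 q a).det = q := by
  unfold comp2; rw [Matrix.det_fin_two_of]; ring

theorem comp2_map {R S : Type} [CommRing R] [CommRing S] (f : R →+* S) (q a : R) :
    (comp2 q a).map f = comp2 (f q) (f a) := by
  unfold comp2
  ext i j
  fin_cases i <;> fin_cases j <;> simp

/-- modulo `p` the trace of a power of the Frobenius is a power of `a` -/
theorem comp2_zero_pow {R : Type} [CommRing R] (a : R) (k : ℕ) :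
    (comp2 0 a) ^ (k + 1) = !![0, 0; a ^ k, a ^ (k + 1)] := by
  induction k with
  | zero => unfold comp2; simp
  | succ k ih =>
    rw [pow_succ, ih]
    unfold comp2
    rw [Matrix.mul_fin_two]
    congr 1
    ext i j
    fin_cases i <;> fin_cases j <;> simp [pow_succ]

theorem comp2_trace_ne {p : ℕ} (hp : p.Prime) {a : ℤ} (ha : ¬ (p : ℤ) ∣ a) (k : ℕ) :
    ((comp2 (p : ℤ) a) ^ (k + 1)).trace ≠ 0 := by
  intro h
  have : Fact p.Prime := ⟨hp⟩
  have h1 := congrArg (Int.castRingHom (ZMod p)) h
  rw [map_zero] at h1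
  have h2 : (Int.castRingHom (ZMod p)) ((comp2 (p : ℤ) a) ^ (k + 1)).trace =
      ((comp2 (0 : ZMod p) (a : ZMod p)) ^ (k + 1)).trace := by
    have h7 : (Int.castRingHom (ZMod p)) ((comp2 (p : ℤ) a) ^ (k + 1)).trace =
        (((comp2 (p : ℤ) a) ^ (k + 1)).map (Int.castRingHom (ZMod p))).trace := by
      rw [Matrix.trace, map_sum]; rfl
    rw [h7]
    congr 1
    have h3 := Matrix.map_pow (comp2 (p : ℤ) a) (Int.castRingHom (ZMod p)) (k + 1)
    have h4 := comp2_map (Int.castRingHom (ZMod p)) (p : ℤ) a
    rw [h4] at h3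
    have h5 : (Int.castRingHom (ZMod p)) (p : ℤ) = 0 := by simp
    have h6 : (Int.castRingHom (ZMod p)) a = (a : ZMod p) := by simp
    rw [h5, h6] at h3
    exact h3
  rw [h2, comp2_zero_pow, Matrix.trace_fin_two_of, zero_add] at h1
  have h3 : (a : ZMod p) = 0 := by
    exact pow_eq_zero_iff (Nat.succ_ne_zero k) |>.1 h1
  exact ha ((ZMod.intCast_zmod_eq_zero_iff_dvd a p).1 h3)

/-- The unramified representation in which Frobenius is the matrix `comp2 q a`. -/
noncomputable def unrRep {K : Type} [Field K] (G : WeilGroup) (q a : K) (hq : q ≠ 0) :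
    G.W →* Matrix (Fin 2) (Fin 2) K :=
  (Units.coeHom (Matrix (Fin 2) (Fin 2) K)).comp
    ((zpowersHom (Matrix (Fin 2) (Fin 2) K)ˣ
      (Matrix.GeneralLinearGroup.mkOfDetNeZero (comp2 q a) (by rw [comp2_det]; exact hq))).comp
        G.deg)

theorem unrRep_apply {K : Type} [Field K] (G : WeilGroup) (q a : K) (hq : q ≠ 0) {w : G.W} {k : ℕ}
    (hk : G.d w = k) : unrRep G q a hq w = (comp2 q a) ^ k := by
  unfold unrRep
  rw [MonoidHom.comp_apply, MonoidHom.comp_apply, zpowersHom_apply]
  have h : Multiplicative.toAdd (G.deg w) = (k : ℤ) := hk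
  rw [h, zpow_natCast, map_pow]
  rfl

end Pool.Agent.R912.LI
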